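import Pool.Agent.Lib.H87.HopfKC.Cert.Pos
import Pool.Agent.Lib.H87.HopfKC.Ent
import Pool.Agent.Lib.H87.HopfKC.Reduce

/-!
# The rows of the complex sectional curvature terms
-/

open Finset

namespace HopfKC

theorem isz_iff (z : ℤ) : isz z = true ↔ z = 0 := by
  cases z with
  | ofNat n =>
    cases n with
    | zero => exact ⟨fun _ => rfl, fun _ => rfl⟩
    | succ n => exact ⟨fun h => absurd h (by simp [isz, Nat.beq]), fun h => by
        exfalso; have : ((n + 1 : ℕ) : ℤ) = 0 := h; omega⟩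
  | negSucc n => exact ⟨fun h => absurd h (by simp [isz]), fun h => by
        exfalso; have : Int.negSucc n = 0 := h; omega⟩

/-- Real part of a packed coefficient. -/
noncomputable def reA (a : ℕ) : ℤ :=
  bif Nat.beq a 0 then .ofNat 0 else Int.subNatNat (Nat.mod a 1024) 512
/-- Imaginary part of a packed coefficient. -/
noncomputable def imA (a : ℕ) : ℤ :=
  bif Nat.beq a 0 then .ofNat 0 else Int.subNatNat (Nat.shiftRight a 10) 512

theorem avd_eq (a : ℕ) : avd a = (reA a : ℂ) + (imA a : ℂ) * Complex.I := by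
  by_cases ha : a = 0
  · subst ha
    simp [avd, reA, imA]
  · have hb : Nat.beq a 0 = false := by
      cases a with
      | zero => exact absurd rfl ha
      | succ n => rfl
    unfold avd reA imA
    rw [if_neg ha, hb]
    rfl

/-- Coefficient sums in a list with complex integer values. -/
noncomputable def cfr (l : List (ℕ × ℤ × ℤ)) (k : ℕ) : ℤ :=
  lsum l fun e => bif Nat.beq e.1 k then e.2.1 else .ofNat 0
/-- Coefficient sums in a list with complex integer values. -/
noncomputable def cfi (l : List (ℕ × ℤ × ℤ)) (k : ℕ) : ℤ :=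
  lsum l fun e => bif Nat.beq e.1 k then e.2.2 else .ofNat 0

theorem beq_iff (a b : ℕ) : Nat.beq a b = true ↔ a = b := by
  constructor
  · exact Nat.eq_of_beq_eq_true
  · intro h; rw [h]; exact Nat.beq_refl b

theorem sum_cf (l : List (ℕ × ℤ × ℤ)) (hl : ∀ e ∈ l, e.1 < 76) (v : ℕ → ℝ) :
    ∑ k ∈ range 76, ((cfr l k : ℂ) + (cfi l k : ℂ) * Complex.I) * (v k : ℂ) =
      (l.map fun e => vl e.2 * (v e.1 : ℂ)).sum := by
  induction l with
  | nil => simp [cfr, cfi, lsum_nil]
  | cons a l ih =>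
    have h1 := ih (fun e he => hl e (List.mem_cons_of_mem _ he))
    have ha := hl a List.mem_cons_self
    rw [List.map_cons, List.sum_cons, ← h1]
    have h2 : ∀ k, ((cfr (a :: l) k : ℂ) + (cfi (a :: l) k : ℂ) * Complex.I) * (v k : ℂ) =
        (if a.1 = k then vl a.2 * (v k : ℂ) else 0) +
          ((cfr l k : ℂ) + (cfi l k : ℂ) * Complex.I) * (v k : ℂ) := by
      intro k
      unfold cfr cfi
      rw [lsum_cons, lsum_cons]
      by_cases hk : a.1 = k
      · have hb : Nat.beq a.1 k = true := (beq_iff _ _).2 hk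
        rw [hb, if_pos hk]
        simp only [cond_true, vl]
        push_cast
        ring
      · have hb : Nat.beq a.1 k = false := by
          rw [← Bool.not_eq_true, beq_iff]; exact hk
        rw [hb, if_neg hk]
        simp only [cond_false]
        push_cast
        simp
    simp only [h2, Finset.sum_add_distrib]
    congr 1
    rw [Finset.sum_ite_eq, if_pos (Finset.mem_range.2 ha)]

/-- Nonzero products `x a * conj (x c)` of the vectors of the six types. -/
def acs : ℕ → List (Fin 6 × Fin 6 × ℤ × ℤ)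
  | 0 => [(0, 0, 1, 0), (0, 3, 0, -1), (3, 0, 0, 1), (3, 3, 1, 0)]
  | 1 => [(0, 0, 1, 0), (0, 3, 0, 1), (3, 0, 0, -1), (3, 3, 1, 0)]
  | 2 => [(0, 0, 1, 0)]
  | 3 => [(3, 3, 1, 0)]
  | 4 => [(0, 0, 1, 0), (0, 1, 0, -1), (0, 3, 1, 0), (1, 0, 0, 1), (1, 1, 1, 0), (1, 3, 0, 1),
      (3, 0, 1, 0), (3, 1, 0, -1), (3, 3, 1, 0)]
  | _ => [(0, 0, 1, 0), (0, 3, 1, 0), (0, 4, 0, -1), (3, 0, 1, 0), (3, 3, 1, 0), (3, 4, 0, -1),
      (4, 0, 0, 1), (4, 3, 0, 1), (4, 4, 1, 0)]

/-- The vectors of the six types. -/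
def xv : ℕ → Fin 6 → ℤ × ℤ
  | 0 => ![(1, 0), (0, 0), (0, 0), (0, 1), (0, 0), (0, 0)]
  | 1 => ![(0, 1), (0, 0), (0, 0), (1, 0), (0, 0), (0, 0)]
  | 2 => ![(1, 0), (0, 0), (0, 0), (0, 0), (0, 0), (0, 0)]
  | 3 => ![(0, 0), (0, 0), (0, 0), (1, 0), (0, 0), (0, 0)]
  | 4 => ![(1, 0), (0, 1), (0, 0), (1, 0), (0, 0), (0, 0)]
  | _ => ![(1, 0), (0, 0), (0, 0), (1, 0), (0, 1), (0, 0)]

/-- The linear form `sum R(a, b, c, d) x_a conj(x_c)` (twice). -/
def AL (t : ℕ) (b d : Fin 6) : List (ℕ × ℤ × ℤ) :=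
  (acs t).flatMap fun q => (ent q.1 b q.2.1 d).map fun e => (e.1, q.2.2.1 * e.2, q.2.2.2 * e.2)

/-- Check of the packed rows of type `t`. -/
noncomputable def ckA (t : ℕ) : Bool :=
  (List.finRange 6).all fun b => (List.finRange 6).all fun d =>
    ((AL t b d).all fun e => Nat.ble (e.1 + 1) 76) &&
    I76.all fun k => isz (Int.sub (reA (av (rwo t k) b.1 d.1)) (cfr (AL t b d) k)) &&
      isz (Int.sub (imA (av (rwo t k) b.1 d.1)) (cfi (AL t b d) k))

set_option maxRecDepth 100000 in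
theorem ckA0 : ckA 0 = true := by decide +kernel
set_option maxRecDepth 100000 in
theorem ckA1 : ckA 1 = true := by decide +kernel
set_option maxRecDepth 100000 in
theorem ckA2 : ckA 2 = true := by decide +kernel
set_option maxRecDepth 100000 in
theorem ckA3 : ckA 3 = true := by decide +kernel
set_option maxRecDepth 100000 in
theorem ckA4 : ckA 4 = true := by decide +kernel
set_option maxRecDepth 100000 in
theorem ckA5 : ckA 5 = true := by decide +kernel

theorem ckA_all : ∀ t < 6, ckA t = true := by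
  intro t ht
  interval_cases t
  · exact ckA0
  · exact ckA1
  · exact ckA2
  · exact ckA3
  · exact ckA4
  · exact ckA5

theorem I76_mem : ∀ k < 76, k ∈ I76 := by
  have : (List.range 76).all (fun k => I76.contains k) = true := by decide
  intro k hk
  have h := List.all_eq_true.1 this k (List.mem_range.2 hk)
  simpa using h

theorem sum_lev (v : ℕ → ℝ) (re im : ℤ) (l : List (ℕ × ℤ)) :
    ((l.map fun e => (e.1, re * e.2, im * e.2)).map fun e => vl e.2 * (v e.1 : ℂ)).sum =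
      vl (re, im) * ((lev v l : ℝ) : ℂ) := by
  induction l with
  | nil => simp [lev]
  | cons a l ih =>
    simp only [List.map_cons, List.sum_cons] at ih ⊢
    rw [ih, lev_cons]
    unfold vl
    push_cast
    ring

theorem sum_flatMap' {α : Type} (l : List α) (f : α → List ℂ) :
    (l.flatMap f).sum = (l.map fun a => (f a).sum).sum := by
  induction l with
  | nil => simp
  | cons a l ih => rw [List.flatMap_cons, List.sum_append, ih, List.map_cons, List.sum_cons]

theorem acs_sum (t : ℕ) (g : Fin 6 → Fin 6 → ℂ) :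
    ((acs t).map fun q => vl (q.2.2.1, q.2.2.2) * g q.1 q.2.1).sum =
      ∑ a, ∑ c, vl (xv t a) * (starRingEnd ℂ) (vl (xv t c)) * g a c := by
  have hI : Complex.I * Complex.I = -1 := Complex.I_mul_I
  rcases t with _ | _ | _ | _ | _ | t <;>
    simp [acs, xv, vl, Fin.sum_univ_six, Complex.conj_I] <;> ring_nf

theorem Av_K {S : T6'} {c : ℝ} (h : Lin c S) (t : ℕ) (ht : t < 6) (b d : Fin 6) :
    Av t (cv c S) b.1 d.1 = ∑ a, ∑ e, vl (xv t a) * (starRingEnd ℂ) (vl (xv t e)) *
      ((2 * S a b e d : ℝ) : ℂ) := by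
  have hck := ckA_all t ht
  unfold ckA at hck
  have h1 := List.all_eq_true.1 (List.all_eq_true.1 hck b (List.mem_finRange b)) d
    (List.mem_finRange d)
  rw [Bool.and_eq_true] at h1
  obtain ⟨h2, h3⟩ := h1
  have hkey : ∀ e ∈ AL t b d, e.1 < 76 := by
    intro e he
    have := List.all_eq_true.1 h2 e he
    exact Nat.le_of_ble_eq_true this
  have hco : ∀ k < 76, avd (av (rwo t k) b.1 d.1) =
      (cfr (AL t b d) k : ℂ) + (cfi (AL t b d) k : ℂ) * Complex.I := by
    intro k hk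
    have := List.all_eq_true.1 h3 k (I76_mem k hk)
    rw [Bool.and_eq_true, isz_iff, isz_iff] at this
    obtain ⟨g1, g2⟩ := this
    have g1' : reA (av (rwo t k) b.1 d.1) = cfr (AL t b d) k := sub_eq_zero.1 g1
    have g2' : imA (av (rwo t k) b.1 d.1) = cfi (AL t b d) k := sub_eq_zero.1 g2
    rw [avd_eq, g1', g2']
  unfold Av
  rw [Finset.sum_congr rfl fun k hk => by rw [hco k (Finset.mem_range.1 hk)],
    sum_cf _ hkey, ← acs_sum]
  unfold AL
  rw [List.map_flatMap, sum_flatMap']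
  congr 1
  refine List.map_congr_left fun q _ => ?_
  rw [sum_lev, lev_ent h]

/-- The terms of types 0 to 5 are complex sectional curvatures. -/
theorem kp_K {S : T6'} (h : Lin 1 S) (t W : ℕ) (ht : t < 6)
    (hW : ∀ i < 76, ∀ e ∈ en (col W i), e.1 < 6) :
    ∑ k ∈ range 76, ∑ i ∈ range 76, ∑ j ∈ range 76, ((kp t W k i j : ℤ) : ℝ) *
      (cv 1 S k * cv 1 S i * cv 1 S j) =
    2 * kc S (fun a => vl (xv t a)) (fun b => wv W (cv 1 S) b.1) := by
  rw [kp_sum 6 t W hW]
  have h1 : ∑ b ∈ range 6, ∑ d ∈ range 6, Av t (cv 1 S) b d * wv W (cv 1 S) b *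
      (starRingEnd ℂ) (wv W (cv 1 S) d) = 2 * ∑ a : Fin 6, ∑ b : Fin 6, ∑ e : Fin 6, ∑ d : Fin 6,
        (S a b e d : ℂ) * vl (xv t a) * wv W (cv 1 S) b.1 * (starRingEnd ℂ) (vl (xv t e)) *
          (starRingEnd ℂ) (wv W (cv 1 S) d.1) := by
    rw [← Fin.sum_univ_eq_sum_range (fun b => ∑ d ∈ range 6, Av t (cv 1 S) b d * wv W (cv 1 S) b *
      (starRingEnd ℂ) (wv W (cv 1 S) d)) 6]
    have h2 : ∀ b : Fin 6, ∑ d ∈ range 6, Av t (cv 1 S) b.1 d * wv W (cv 1 S) b.1 *
        (starRingEnd ℂ) (wv W (cv 1 S) d) = ∑ d : Fin 6, ∑ a : Fin 6, ∑ e : Fin 6,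
          2 * ((S a b e d : ℂ) * vl (xv t a) * wv W (cv 1 S) b.1 *
            (starRingEnd ℂ) (vl (xv t e)) * (starRingEnd ℂ) (wv W (cv 1 S) d.1)) := by
      intro b
      rw [← Fin.sum_univ_eq_sum_range (fun d => Av t (cv 1 S) b.1 d * wv W (cv 1 S) b.1 *
        (starRingEnd ℂ) (wv W (cv 1 S) d)) 6]
      refine Finset.sum_congr rfl fun d _ => ?_
      rw [Av_K h t ht b d, Finset.sum_mul, Finset.sum_mul]
      refine Finset.sum_congr rfl fun a _ => ?_
      rw [Finset.sum_mul, Finset.sum_mul]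
      refine Finset.sum_congr rfl fun e _ => ?_
      push_cast
      ring
    simp only [h2]
    simp only [Finset.mul_sum]
    have sw : ∀ f : Fin 6 → Fin 6 → Fin 6 → Fin 6 → ℂ, ∑ b, ∑ d, ∑ a, ∑ e, f a b e d =
        ∑ a, ∑ b, ∑ e, ∑ d, f a b e d := by
      intro f
      calc ∑ b, ∑ d, ∑ a, ∑ e, f a b e d = ∑ b, ∑ a, ∑ d, ∑ e, f a b e d :=
            Finset.sum_congr rfl fun b _ => Finset.sum_comm
        _ = ∑ a, ∑ b, ∑ d, ∑ e, f a b e d := Finset.sum_comm
        _ = ∑ a, ∑ b, ∑ e, ∑ d, f a b e d :=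
            Finset.sum_congr rfl fun a _ => Finset.sum_congr rfl fun b _ => Finset.sum_comm
    exact sw fun a b e d => 2 * ((S a b e d : ℂ) * vl (xv t a) * wv W (cv 1 S) b.1 *
            (starRingEnd ℂ) (vl (xv t e)) * (starRingEnd ℂ) (wv W (cv 1 S) d.1))
  rw [h1]
  unfold kc
  rw [show (2 : ℂ) = ((2 : ℝ) : ℂ) by norm_num, Complex.re_ofReal_mul]

end HopfKC
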