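import Pool.Agent.Lib.H87.HopfKC.Cert.Pos

/-!
# Versions of the kernel functions for arbitrary data
-/

open Finset

namespace HopfKC

/-- Tensor of a positive term with packed rows `r`. -/
noncomputable def kpg (r : ℕ → ℕ) (W k i j : ℕ) : ℤ :=
  bif Nat.beq (col W i) 0 then .ofNat 0 else bif Nat.beq (col W j) 0 then .ofNat 0
    else kap (r k) (col W i) (col W j)

theorem kp_eq_kpg (t W k i j : ℕ) : kp t W k i j = kpg (rwo t) W k i j := rfl

/-- Sorted coefficients from a tree. -/
noncomputable def f3g (T : Tr ℕ) (k i j : ℕ) : ℤ :=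
  lkf 259 (Nat.shiftLeft 1 250) j 10 (Tr.get T (Nat.add (Nat.mul 76 k) i))

/-- Symmetric coefficients from a tree. -/
noncomputable def fhg (T : Tr ℕ) (k i j : ℕ) : ℤ :=
  bif Nat.ble k i then
    (bif Nat.ble i j then f3g T k i j else bif Nat.ble k j then f3g T k j i else f3g T j k i)
  else (bif Nat.ble k j then f3g T i k j else bif Nat.ble i j then f3g T i j k else f3g T j i k)

theorem fh_eq_fhg (k i j : ℕ) : fh k i j = fhg fT k i j := rfl

/-- Casimir, diagonal part. -/
noncomputable def ccg (f : ℕ → ℕ → ℕ → ℤ) (k i j : ℕ) : ℤ :=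
  lsum (Tr.get ctT k) fun e => Int.mul e.2 (f e.1 i j)

/-- Product of two derivations for one plane. -/
noncomputable def ddg (f : ℕ → ℕ → ℕ → ℤ) (a b : List (ℕ × ℤ)) (j : ℕ) : ℤ :=
  lsum a fun e => lsum b fun e' => Int.mul (Int.mul e.2 e'.2) (f e.1 e'.1 j)

/-- Casimir, mixed part. -/
noncomputable def xxg (f : ℕ → ℕ → ℕ → ℤ) (k i j : ℕ) : ℤ :=
  isum (List.zipWith (fun a b => ddg f a b j) (Tr.get xtT k) (Tr.get xtT i))

theorem cc_eq_ccg (k i j : ℕ) : cc k i j = ccg fh k i j := rfl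
theorem xx_eq_xxg (k i j : ℕ) : xx k i j = xxg fh k i j := rfl

theorem fhg_symm23 (T : Tr ℕ) (k i j : ℕ) : fhg T k j i = fhg T k i j := by
  have hb : ∀ a b : ℕ, Nat.ble a b = decide (a ≤ b) := by
    intro a b
    rw [Bool.eq_iff_iff, decide_eq_true_iff]
    exact ⟨Nat.le_of_ble_eq_true, Nat.ble_eq_true_of_le⟩
  simp only [fhg, hb]
  by_cases h1 : k ≤ i <;> by_cases h2 : i ≤ j <;> by_cases h3 : k ≤ j <;> by_cases h4 : j ≤ i <;>
    simp only [h1, h2, h3, h4, decide_true, decide_false, cond_true, cond_false] <;>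
    first
    | rfl
    | (exfalso; omega)
    | (have h5 : i = j := by omega
       subst h5; rfl)

theorem fhg_symm12 (T : Tr ℕ) (k i j : ℕ) : fhg T i k j = fhg T k i j := by
  have hb : ∀ a b : ℕ, Nat.ble a b = decide (a ≤ b) := by
    intro a b
    rw [Bool.eq_iff_iff, decide_eq_true_iff]
    exact ⟨Nat.le_of_ble_eq_true, Nat.ble_eq_true_of_le⟩
  simp only [fhg, hb]
  by_cases h1 : k ≤ i <;> by_cases h2 : i ≤ j <;> by_cases h3 : k ≤ j <;> by_cases h4 : i ≤ k <;>
    simp only [h1, h2, h3, h4, decide_true, decide_false, cond_true, cond_false] <;>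
    first
    | rfl
    | (exfalso; omega)
    | (have h5 : i = k := by omega
       subst h5; rfl)

theorem kpg_eq (r : ℕ → ℕ) (W k i j : ℕ) : kpg r W k i j = kap (r k) (col W i) (col W j) := by
  have hb : ∀ a : ℕ, Nat.beq a 0 = true ↔ a = 0 := fun a => by
    cases a with
    | zero => exact ⟨fun _ => rfl, fun _ => rfl⟩
    | succ n => exact ⟨fun h => by simp [Nat.beq] at h, fun h => by simp at h⟩
  unfold kpg
  by_cases h1 : Nat.beq (col W i) 0 = true
  · rw [h1]
    have : col W i = 0 := (hb _).1 h1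
    rw [this]
    rfl
  · rw [Bool.not_eq_true] at h1
    rw [h1]
    by_cases h2 : Nat.beq (col W j) 0 = true
    · rw [h2]
      have : col W j = 0 := (hb _).1 h2
      rw [this]
      unfold kap
      rw [en_zero]
      simp only [cond_false, cond_true, lsum_nil]
      rw [lsum_eq]
      simp
    · rw [Bool.not_eq_true] at h2
      rw [h2]
      rfl

/-- Matrix of linear forms with packed rows `r` at `v`. -/
noncomputable def Avg (r : ℕ → ℕ) (v : ℕ → ℝ) (b d : ℕ) : ℂ :=
  ∑ k ∈ range 76, avd (av (r k) b d) * (v k : ℂ)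

theorem innerg_eq (n : ℕ) (r : ℕ → ℕ) (W k i j : ℕ) (hi : ∀ e ∈ en (col W i), e.1 < n)
    (hj : ∀ e ∈ en (col W j), e.1 < n) :
    ∑ b ∈ range n, ∑ d ∈ range n, avd (av (r k) b d) * xc W i b *
      (starRingEnd ℂ) (xc W j d) =
    ((en (col W i)).map fun e => ((en (col W j)).map fun e' =>
      avd (av (r k) e.1 e'.1) * vl e.2 * (starRingEnd ℂ) (vl e'.2)).sum).sum := by
  have h1 : ∀ b, ∑ d ∈ range n, avd (av (r k) b d) * xc W i b *
      (starRingEnd ℂ) (xc W j d) = (((en (col W j)).map fun e' =>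
        avd (av (r k) b e'.1) * (starRingEnd ℂ) (vl e'.2)).sum) * xc W i b := by
    intro b
    have h2 : ∀ d, (starRingEnd ℂ) (xc W j d) =
        ((en (col W j)).map fun e => if e.1 = d then (starRingEnd ℂ) (vl e.2) else 0).sum := by
      intro d
      unfold xc
      rw [map_list_sum, List.map_map]
      congr 1
      refine List.map_congr_left fun e _ => ?_
      simp only [Function.comp_apply]
      split_ifs <;> simp
    have h3 := sum_ite_list n (fun d => avd (av (r k) b d))
      (fun w => (starRingEnd ℂ) (vl w)) (en (col W j)) hj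
    rw [← h3, Finset.sum_mul]
    refine Finset.sum_congr rfl fun d _ => ?_
    rw [h2 d]
    ring
  simp only [h1]
  have h4 := sum_ite_list n (fun b => (((en (col W j)).map fun e' =>
        avd (av (r k) b e'.1) * (starRingEnd ℂ) (vl e'.2)).sum)) vl (en (col W i)) hi
  unfold xc
  rw [h4]
  congr 1
  refine List.map_congr_left fun e _ => ?_
  rw [← List.sum_map_mul_right]
  congr 1
  refine List.map_congr_left fun e' _ => ?_
  ring

/-- The tensor of a term evaluates to the Hermitian form. -/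
theorem kpg_sum (n : ℕ) (r : ℕ → ℕ) (W : ℕ) (hW : ∀ i < 76, ∀ e ∈ en (col W i), e.1 < n) (v : ℕ → ℝ) :
    ∑ k ∈ range 76, ∑ i ∈ range 76, ∑ j ∈ range 76, ((kpg r W k i j : ℤ) : ℝ) *
      (v k * v i * v j) =
    (∑ b ∈ range n, ∑ d ∈ range n, Avg r v b d * wv W v b * (starRingEnd ℂ) (wv W v d)).re := by
  have h1 : ∑ b ∈ range n, ∑ d ∈ range n, Avg r v b d * wv W v b * (starRingEnd ℂ) (wv W v d) =
      ∑ k ∈ range 76, ∑ i ∈ range 76, ∑ j ∈ range 76,
        (∑ b ∈ range n, ∑ d ∈ range n, avd (av (r k) b d) * xc W i b *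
          (starRingEnd ℂ) (xc W j d)) * ((v k : ℂ) * (v i : ℂ) * (v j : ℂ)) := by
    have h2 : ∀ b d, Avg r v b d * wv W v b * (starRingEnd ℂ) (wv W v d) =
        ∑ k ∈ range 76, ∑ i ∈ range 76, ∑ j ∈ range 76, avd (av (r k) b d) * xc W i b *
          (starRingEnd ℂ) (xc W j d) * ((v k : ℂ) * (v i : ℂ) * (v j : ℂ)) := by
      intro b d
      unfold Avg wv
      rw [map_sum, Finset.sum_mul_sum, Finset.sum_mul]
      refine Finset.sum_congr rfl fun k _ => ?_
      rw [Finset.sum_mul_sum]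
      refine Finset.sum_congr rfl fun i _ => Finset.sum_congr rfl fun j _ => ?_
      rw [map_mul, Complex.conj_ofReal]
      ring
    simp only [h2]
    have sw : ∀ (f : ℕ → ℕ → ℕ → ℂ), ∑ b ∈ range n, ∑ d ∈ range n, ∑ k ∈ range 76, f b d k =
        ∑ k ∈ range 76, ∑ b ∈ range n, ∑ d ∈ range n, f b d k := by
      intro f
      rw [Finset.sum_comm]
      rw [Finset.sum_congr rfl fun d _ => Finset.sum_comm, Finset.sum_comm]
      exact Finset.sum_congr rfl fun k _ => Finset.sum_comm
    rw [sw]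
    refine Finset.sum_congr rfl fun k _ => ?_
    rw [sw]
    refine Finset.sum_congr rfl fun i _ => ?_
    rw [sw]
    refine Finset.sum_congr rfl fun j _ => ?_
    rw [Finset.sum_mul]
    refine Finset.sum_congr rfl fun b _ => ?_
    rw [Finset.sum_mul]
  rw [h1, Complex.re_sum]
  refine Finset.sum_congr rfl fun k _ => ?_
  rw [Complex.re_sum]
  refine Finset.sum_congr rfl fun i hi => ?_
  rw [Complex.re_sum]
  refine Finset.sum_congr rfl fun j hj => ?_
  rw [innerg_eq n r W k i j (hW i (Finset.mem_range.1 hi)) (hW j (Finset.mem_range.1 hj)),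
    kpg_eq, kap_eq]
  rw [show ((v k : ℂ) * (v i : ℂ) * (v j : ℂ)) = ((v k * v i * v j : ℝ) : ℂ) by push_cast; ring,
    Complex.re_mul_ofReal]

end HopfKC
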