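import Pool.Agent.Lib.H87.HopfKC.Cert.Gen
import Pool.Agent.Lib.H87.HopfKC.Cert.RowK
import Pool.Agent.Lib.H26.HopfSign
import Pool.Agent.Lib.H91.HopfT4

/-!
# A generic certificate: maximum principle over block rotations and sign average

`f`: auxiliary cubic (symmetric), `e`: target, `K`: positive part; the tables only enter through
the vanishing of all sign invariant coefficients of `N e + 2 (3 cc + 6 xx) / 3 - 2 K`.
-/

open Finset H91.Split

namespace HopfKC.Gs

/-- Sum of a table over the six orders of the indices. -/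
def s6i (e : ℕ → ℕ → ℕ → ℤ) (k i j : ℕ) : ℤ :=
  e k i j + e k j i + (e i k j + e i j k) + (e j k i + e j i k)

/-- Value of the cubic with coefficients `e`. -/
noncomputable def V (e : ℕ → ℕ → ℕ → ℤ) (v : ℕ → ℝ) : ℝ :=
  ∑ k ∈ range 76, ∑ i ∈ range 76, ∑ j ∈ range 76, (e k i j : ℝ) * (v k * v i * v j)

theorem V_add (e e' : ℕ → ℕ → ℕ → ℤ) (v : ℕ → ℝ) :
    V (fun k i j => e k i j + e' k i j) v = V e v + V e' v := by
  unfold V
  simp only [← Finset.sum_add_distrib]
  refine Finset.sum_congr rfl fun k _ => Finset.sum_congr rfl fun i _ =>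
    Finset.sum_congr rfl fun j _ => ?_
  push_cast
  ring

theorem V_mul (c : ℤ) (e : ℕ → ℕ → ℕ → ℤ) (v : ℕ → ℝ) :
    V (fun k i j => c * e k i j) v = (c : ℝ) * V e v := by
  unfold V
  simp only [Finset.mul_sum]
  refine Finset.sum_congr rfl fun k _ => Finset.sum_congr rfl fun i _ =>
    Finset.sum_congr rfl fun j _ => ?_
  push_cast
  ring

theorem V_congr {e e' : ℕ → ℕ → ℕ → ℤ}
    (h : ∀ k < 76, ∀ i < 76, ∀ j < 76, e k i j = e' k i j) (v : ℕ → ℝ) : V e v = V e' v := by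
  unfold V
  refine Finset.sum_congr rfl fun k hk => Finset.sum_congr rfl fun i hi =>
    Finset.sum_congr rfl fun j hj => ?_
  rw [h k (mem_range.1 hk) i (mem_range.1 hi) j (mem_range.1 hj)]

/-- Value of a list of tables with multiplicities. -/
theorem V_list {α : Type} (l : List α) (d : α → ℤ) (q : α → ℕ → ℕ → ℕ → ℤ) (v : ℕ → ℝ) :
    V (fun k i j => (l.map fun t => d t * q t k i j).sum) v =
      (l.map fun t => (d t : ℝ) * V (q t) v).sum := by
  induction l with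
  | nil => simp [V]
  | cons t l ih =>
    simp only [List.map_cons, List.sum_cons]
    rw [← ih, ← V_mul, ← V_add]

theorem ccg_symm {f : ℕ → ℕ → ℕ → ℤ} (f23 : ∀ k i j, f k j i = f k i j) (k i j : ℕ) :
    ccg f k j i = ccg f k i j := by
  unfold ccg
  congr 1
  funext e
  rw [f23]

theorem lsum_add' {α : Type} (l : List α) (f g : α → ℤ) :
    lsum l (fun a => f a + g a) = lsum l f + lsum l g := by
  induction l with
  | nil => rfl
  | cons a l ih => rw [lsum_cons, lsum_cons, lsum_cons, ih]; ring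

theorem ddg_symm {f : ℕ → ℕ → ℕ → ℤ} (f12 : ∀ k i j, f i k j = f k i j)
    (a b : List (ℕ × ℤ)) (j : ℕ) : ddg f a b j = ddg f b a j := by
  unfold ddg
  have h0 : ∀ l : List (ℕ × ℤ), lsum l (fun _ => (0 : ℤ)) = 0 := by
    intro l
    induction l with
    | nil => rfl
    | cons e l ih => rw [lsum_cons, ih]; rfl
  induction a with
  | nil =>
    rw [lsum_nil]
    have : (fun e : ℕ × ℤ => lsum [] fun e' : ℕ × ℤ => Int.mul (Int.mul e.2 e'.2) (f e.1 e'.1 j)) =
      fun _ => (0 : ℤ) := rfl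
    rw [this, h0]
  | cons x a ih =>
    rw [lsum_cons, ih]
    have : (fun e : ℕ × ℤ => lsum (x :: a) fun e' : ℕ × ℤ =>
        Int.mul (Int.mul e.2 e'.2) (f e.1 e'.1 j)) =
      fun e : ℕ × ℤ => Int.mul (Int.mul x.2 e.2) (f x.1 e.1 j) + lsum a fun e' : ℕ × ℤ =>
        Int.mul (Int.mul e.2 e'.2) (f e.1 e'.1 j) := by
      funext e
      rw [lsum_cons]
      congr 1
      rw [f12, show Int.mul e.2 x.2 = e.2 * x.2 from rfl,
        show Int.mul x.2 e.2 = x.2 * e.2 from rfl, mul_comm]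
    rw [this, lsum_add']

theorem xxg_symm {f : ℕ → ℕ → ℕ → ℤ} (f12 : ∀ k i j, f i k j = f k i j) (k i j : ℕ) :
    xxg f i k j = xxg f k i j := by
  unfold xxg
  rw [List.zipWith_comm]
  congr 2
  funext a b
  exact ddg_symm f12 _ _ _

/-- A table of which all monomials are sign invariant gives a sign invariant cubic. -/
theorem P_signg {f : ℕ → ℕ → ℕ → ℤ}
    (fm : ∀ k < 76, ∀ i < 76, ∀ j < 76, f k i j ≠ 0 → mask k ^^^ mask i ^^^ mask j = 0)
    (R : T6') (D : ℕ) :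
    P (fun k i j => (f k i j : ℝ)) 76 (vq qd (rot (dg D) R)) =
      P (fun k i j => (f k i j : ℝ)) 76 (vq qd R) := by
  have hv : ∀ R : T6', vq qd R = cv 1 R := fun R => rfl
  have h := sum_sign_inv (fun k i j => if k < 76 ∧ i < 76 ∧ j < 76 then (f k i j : ℝ) else 0) 76
    (fun k i j hne => by
      by_cases hc : k < 76 ∧ i < 76 ∧ j < 76
      · rw [if_pos hc] at hne
        exact fm k hc.1 i hc.2.1 j hc.2.2 (by exact_mod_cast hne)
      · rw [if_neg hc] at hne
        exact absurd rfl hne) D (cv 1 R)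
  rw [hv, hv]
  unfold P
  have e : ∀ (w : ℕ → ℝ), ∑ k ∈ range 76, ∑ i ∈ range 76, ∑ j ∈ range 76,
      (if k < 76 ∧ i < 76 ∧ j < 76 then (f k i j : ℝ) else 0) * (w k * w i * w j) =
      ∑ k ∈ range 76, ∑ i ∈ range 76, ∑ j ∈ range 76, (f k i j : ℝ) * (w k * w i * w j) := by
    intro w
    refine Finset.sum_congr rfl fun k hk => Finset.sum_congr rfl fun i hi =>
      Finset.sum_congr rfl fun j hj => ?_
    rw [if_pos ⟨Finset.mem_range.1 hk, Finset.mem_range.1 hi, Finset.mem_range.1 hj⟩]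
  simp only [cv_rot_dg]
  rw [← e (cv 1 R), ← e (fun i => (chi D i : ℝ) * cv 1 R i)]
  exact h

/-- **Generic certificate.** -/
theorem generic {N : ℤ} {e f K : ℕ → ℕ → ℕ → ℤ}
    (f12 : ∀ k i j, f i k j = f k i j) (f23 : ∀ k i j, f k j i = f k i j)
    (fm : ∀ k < 76, ∀ i < 76, ∀ j < 76, f k i j ≠ 0 → mask k ^^^ mask i ^^^ mask j = 0)
    (hz : ∀ k i j, k ≤ i → i ≤ j → j < 76 → mask k ^^^ mask i ^^^ mask j = 0 →
      N * s6i e k i j + 4 * (ccg f k i j + ccg f i k j + ccg f j k i +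
        2 * (xxg f k i j + xxg f k j i + xxg f i j k)) - 2 * s6i K k i j = 0)
    {S : T6'} (hL : ∀ D : ℕ, Lin 1 (rot (dg D) S))
    (hmax : ∀ g : M6, IsBlk g → g.transpose * g = 1 →
      P (fun k i j => (f k i j : ℝ)) 76 (vq qd (rot g S)) ≤
        P (fun k i j => (f k i j : ℝ)) 76 (vq qd S)) :
    0 ≤ ∑ D ∈ range 64, ((N : ℝ) * V e (cv 1 (rot (dg D) S)) - 2 * V K (cv 1 (rot (dg D) S))) := by
  have hc : ∀ D : ℕ, V (fun k i j => 3 * ccg f k i j + 6 * xxg f k i j)
      (cv 1 (rot (dg D) S)) ≤ 0 := by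
    intro D
    refine Act.casimirg_le_of_max (fun k i j => (f12 k i j).symm) (fun k i j => (f23 k i j).symm)
      (hL D) ?_
    intro g hg ho
    rw [rot_rot, P_signg fm]
    exact hmax _ ((dg_blk D).mul hg) (orth_mul (dg_orth D) ho)
  obtain ⟨z, hzz⟩ : ∃ z : ℕ → ℕ → ℕ → ℤ, z = fun k i j => 3 * N * e k i j +
    2 * (3 * ccg f k i j + 6 * xxg f k i j) + (-6) * K k i j := ⟨_, rfl⟩
  have h0 := sum_sign_eq_zero (fun k i j => (z k i j : ℝ)) 76 (fun k i j h1 h2 h3 hm => by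
    have h4 := hz k i j h1 h2 h3 hm
    unfold s6i at h4
    unfold sym6
    have h5 : z k i j + z k j i + z i k j + z i j k + z j k i + z j i k = 0 := by
      rw [hzz]
      simp only []
      rw [ccg_symm f23 k i j, ccg_symm f23 i k j, ccg_symm f23 j k i, xxg_symm f12 k i j,
        xxg_symm f12 k j i, xxg_symm f12 i j k]
      linarith
    simp only []
    exact_mod_cast h5) (cv 1 S)
  have h1 : ∀ D : ℕ, ∑ k ∈ range 76, ∑ i ∈ range 76, ∑ j ∈ range 76,
      (z k i j : ℝ) * (((chi D k : ℝ) * cv 1 S k) * ((chi D i : ℝ) * cv 1 S i) *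
        ((chi D j : ℝ) * cv 1 S j)) ≤
      3 * ((N : ℝ) * V e (cv 1 (rot (dg D) S)) - 2 * V K (cv 1 (rot (dg D) S))) := by
    intro D
    have e1 : ∑ k ∈ range 76, ∑ i ∈ range 76, ∑ j ∈ range 76,
      (z k i j : ℝ) * (((chi D k : ℝ) * cv 1 S k) * ((chi D i : ℝ) * cv 1 S i) *
        ((chi D j : ℝ) * cv 1 S j)) = V z (cv 1 (rot (dg D) S)) := by
      unfold V
      simp only [cv_rot_dg]
    have e2 : V z (cv 1 (rot (dg D) S)) = ((3 * N : ℤ) : ℝ) * V e (cv 1 (rot (dg D) S)) +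
        ((2 : ℤ) : ℝ) * V (fun k i j => 3 * ccg f k i j + 6 * xxg f k i j) (cv 1 (rot (dg D) S)) +
        ((-6 : ℤ) : ℝ) * V K (cv 1 (rot (dg D) S)) := by
      rw [hzz, ← V_mul, ← V_mul, ← V_mul, ← V_add, ← V_add]
    rw [e1, e2]
    have := hc D
    push_cast
    linarith
  have h2 : (0 : ℝ) ≤ ∑ D ∈ range 64,
      3 * ((N : ℝ) * V e (cv 1 (rot (dg D) S)) - 2 * V K (cv 1 (rot (dg D) S))) := by
    rw [← h0]
    exact Finset.sum_le_sum fun D _ => h1 D
  rw [← Finset.mul_sum] at h2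
  linarith

end HopfKC.Gs
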