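import Pool.Agent.Lib.H87.HopfKC.Cert.DataE
import Pool.Agent.Lib.H87.HopfKC.Cert.DataF
import Pool.Agent.Lib.H87.HopfKC.Cert.DataR

/-!
# The coefficients of the certificate

`e4`: sorted coefficients of four times the Gauss–Bonnet cubic; `fh`: symmetric coefficients of
the auxiliary cubic; `cc`, `xx`: the two parts of its Casimir; `kp`: the tensors of the positive
terms; `Z`: the symmetrised coefficient of the final identity.
-/

namespace HopfKC

/-- Coefficient of the sorted monomial `(k, i, j)` in `4 E`. -/
noncomputable def e4 (k i j : ℕ) : ℤ := lkf 16 256 j 10 (Tr.get e4T (Nat.add (Nat.mul 76 k) i))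

/-- Coefficients of the auxiliary cubic, sorted indices. -/
noncomputable def f3 (k i j : ℕ) : ℤ :=
  lkf 259 (Nat.shiftLeft 1 250) j 10 (Tr.get fT (Nat.add (Nat.mul 76 k) i))

/-- Coefficients of the auxiliary cubic, symmetric in the indices. -/
noncomputable def fh (k i j : ℕ) : ℤ :=
  bif Nat.ble k i then
    (bif Nat.ble i j then f3 k i j else bif Nat.ble k j then f3 k j i else f3 j k i)
  else (bif Nat.ble k j then f3 i k j else bif Nat.ble i j then f3 i j k else f3 j i k)

/-- Casimir, diagonal part. -/
noncomputable def cc (k i j : ℕ) : ℤ := lsum (Tr.get ctT k) fun e => Int.mul e.2 (fh e.1 i j)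

/-- Product of two derivations for one plane. -/
noncomputable def dd (a b : List (ℕ × ℤ)) (j : ℕ) : ℤ :=
  lsum a fun e => lsum b fun e' => Int.mul (Int.mul e.2 e'.2) (fh e.1 e'.1 j)

/-- Casimir, mixed part. -/
noncomputable def xx (k i j : ℕ) : ℤ :=
  isum (List.zipWith (fun a b => dd a b j) (Tr.get xtT k) (Tr.get xtT i))

/-- Parity mask of a coordinate. -/
noncomputable def mk (k : ℕ) : ℕ := Nat.mod (Nat.shiftRight maskLit (Nat.mul 6 k)) 64

/-- Packed row `k` of the forms of type `t`. -/
noncomputable def rwo (t k : ℕ) : ℕ :=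
  Nat.mod (Nat.shiftRight (List.getD rowsL t 0) (Nat.mul 1620 k)) (Nat.shiftLeft 1 1620)

/-- Tensor of a positive term: type `t`, packed matrix `W`. -/
noncomputable def kp (t W k i j : ℕ) : ℤ :=
  bif Nat.beq (col W i) 0 then .ofNat 0 else bif Nat.beq (col W j) 0 then .ofNat 0
    else kap (rwo t k) (col W i) (col W j)

/-- Sum of the symmetrised positive terms. -/
noncomputable def kt (k i j : ℕ) : ℤ :=
  lsum tms fun t => Int.mul (.ofNat t.2.1) (s6 (kp t.1 t.2.2) k i j)

/-- The symmetrised coefficient of the final identity. -/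
noncomputable def Z (k i j : ℕ) : ℤ :=
  Int.sub (Int.add (Int.mul (Int.ofNat NN) (s6 e4 k i j))
    (Int.mul (.ofNat 4) (Int.add (Int.add (Int.add (cc k i j) (cc i k j)) (cc j k i))
      (Int.mul (.ofNat 2) (Int.add (Int.add (xx k i j) (xx k j i)) (xx i j k))))))
    (Int.mul (.ofNat 2) (kt k i j))

/-- Check of all coefficients with smallest index `k`. -/
noncomputable def row (k : ℕ) : Bool :=
  I76.all fun i => bif Nat.ble k i then
    (Tr.get clsT (Nat.xor (mk k) (mk i))).all fun j =>
      bif Nat.ble i j then isz (Z k i j) else true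
  else true

end HopfKC
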