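import Mathlib

/-!
# Kernel functions for the certificate

Everything here is written with recursors and raw `Nat` / `Int` operations so that the kernel
evaluates it fast.
-/

namespace HopfKC

/-- Binary search tree. -/
inductive Tr (α : Type) | lf (a : α) | nd (p : ℕ) (l r : Tr α)

/-- Lookup. -/
noncomputable def Tr.get {α : Type} (t : Tr α) (n : ℕ) : α :=
  Tr.rec (motive := fun _ => α) (fun a => a)
    (fun p _ _ gl gr => bif Nat.ble p n then gr else gl) t

/-- Test for zero. -/
noncomputable def isz (z : ℤ) : Bool := Int.rec (motive := fun _ => Bool) (fun n => Nat.beq n 0)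
  (fun _ => false) z

/-- Value with key `j` in a packed list with `w` bits per entry: seven bits for the
key, the rest for the value with offset `o`. -/
noncomputable def lkf (w o j fuel : ℕ) : ℕ → ℤ :=
  Nat.rec (motive := fun _ => ℕ → ℤ) (fun _ => .ofNat 0)
    (fun _ ih n => bif Nat.beq n 0 then .ofNat 0 else
      bif Nat.beq (Nat.mod n 128) j then
        Int.subNatNat (Nat.shiftRight (Nat.mod n (Nat.shiftLeft 1 w)) 7) o
      else ih (Nat.shiftRight n w)) fuel

/-- Sum of a list. -/
noncomputable def isum (l : List ℤ) : ℤ := List.rec (.ofNat 0) (fun a _ s => Int.add a s) l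

/-- Sum of a function over a list. -/
noncomputable def lsum {α : Type} (l : List α) (f : α → ℤ) : ℤ :=
  List.rec (.ofNat 0) (fun a _ s => Int.add (f a) s) l

/-- Sum over the six permutations. -/
noncomputable def s6 (f : ℕ → ℕ → ℕ → ℤ) (k i j : ℕ) : ℤ :=
  Int.add (Int.add (Int.add (f k i j) (f k j i)) (Int.add (f i k j) (f i j k)))
    (Int.add (f j k i) (f j i k))

/-- Decoding of an entry: row index, real part, imaginary part. -/
noncomputable def dec (e : ℕ) : ℕ × ℤ × ℤ :=
  (Nat.mod e 16, Int.subNatNat (Nat.mod (Nat.shiftRight e 4) 1024) 512,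
    Int.subNatNat (Nat.mod (Nat.shiftRight e 14) 1024) 512)

/-- Decoding of a column with at most two entries. -/
noncomputable def en (c : ℕ) : List (ℕ × ℤ × ℤ) :=
  bif Nat.beq c 0 then [] else bif Nat.ble c 16777215 then [dec c]
    else [dec (Nat.mod c 16777216), dec (Nat.shiftRight c 24)]

/-- Column `i` of a packed matrix. -/
noncomputable def col (W i : ℕ) : ℕ :=
  Nat.mod (Nat.shiftRight W (Nat.mul 48 i)) 281474976710656

/-- Entry `(b, d)` of a packed row. -/
noncomputable def av (row b d : ℕ) : ℕ :=
  Nat.mod (Nat.shiftRight row (Nat.mul 20 (Nat.add (Nat.mul 9 b) d))) 1048576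

/-- Real part of `a * w * conj u`, `a` packed. -/
noncomputable def pr (a : ℕ) (w u : ℤ × ℤ) : ℤ :=
  bif Nat.beq a 0 then .ofNat 0 else
  Int.sub (Int.mul (Int.subNatNat (Nat.mod a 1024) 512)
      (Int.add (Int.mul w.1 u.1) (Int.mul w.2 u.2)))
    (Int.mul (Int.subNatNat (Nat.shiftRight a 10) 512)
      (Int.sub (Int.mul w.2 u.1) (Int.mul w.1 u.2)))

/-- Bilinear expression of two columns. -/
noncomputable def kap (row ci cj : ℕ) : ℤ :=
  lsum (en ci) fun e => lsum (en cj) fun e' => pr (av row e.1 e'.1) e.2 e'.2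

end HopfKC
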