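import Pool.Agent.Lib.H87.HopfKC.Cert.Def

set_option maxRecDepth 100000

namespace HopfKC

theorem row_0 : row 0 = true := by decide +kernel
theorem row_13 : row 13 = true := by decide +kernel
theorem row_24 : row 24 = true := by decide +kernel
theorem row_27 : row 27 = true := by decide +kernel
theorem row_34 : row 34 = true := by decide +kernel

end HopfKC
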