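import Pool.Agent.Lib.H87.HopfKC.Cert.Def

set_option maxRecDepth 100000

namespace HopfKC

theorem row_1 : row 1 = true := by decide +kernel
theorem row_9 : row 9 = true := by decide +kernel
theorem row_20 : row 20 = true := by decide +kernel
theorem row_26 : row 26 = true := by decide +kernel
theorem row_42 : row 42 = true := by decide +kernel
theorem row_46 : row 46 = true := by decide +kernel
theorem row_47 : row 47 = true := by decide +kernel
theorem row_48 : row 48 = true := by decide +kernel
theorem row_49 : row 49 = true := by decide +kernel
theorem row_50 : row 50 = true := by decide +kernel
theorem row_51 : row 51 = true := by decide +kernel
theorem row_52 : row 52 = true := by decide +kernel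
theorem row_53 : row 53 = true := by decide +kernel
theorem row_54 : row 54 = true := by decide +kernel
theorem row_55 : row 55 = true := by decide +kernel
theorem row_56 : row 56 = true := by decide +kernel
theorem row_57 : row 57 = true := by decide +kernel
theorem row_58 : row 58 = true := by decide +kernel
theorem row_59 : row 59 = true := by decide +kernel
theorem row_60 : row 60 = true := by decide +kernel
theorem row_61 : row 61 = true := by decide +kernel
theorem row_62 : row 62 = true := by decide +kernel
theorem row_63 : row 63 = true := by decide +kernel
theorem row_64 : row 64 = true := by decide +kernel
theorem row_65 : row 65 = true := by decide +kernel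
theorem row_66 : row 66 = true := by decide +kernel
theorem row_67 : row 67 = true := by decide +kernel
theorem row_68 : row 68 = true := by decide +kernel
theorem row_69 : row 69 = true := by decide +kernel
theorem row_70 : row 70 = true := by decide +kernel
theorem row_71 : row 71 = true := by decide +kernel
theorem row_72 : row 72 = true := by decide +kernel
theorem row_73 : row 73 = true := by decide +kernel
theorem row_74 : row 74 = true := by decide +kernel
theorem row_75 : row 75 = true := by decide +kernel

end HopfKC
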