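import Pool.Agent.Lib.H87.HopfKC.Cert.Def

set_option maxRecDepth 100000

namespace HopfKC

theorem row_8 : row 8 = true := by decide +kernel
theorem row_10 : row 10 = true := by decide +kernel
theorem row_17 : row 17 = true := by decide +kernel
theorem row_19 : row 19 = true := by decide +kernel
theorem row_33 : row 33 = true := by decide +kernel
theorem row_44 : row 44 = true := by decide +kernel

end HopfKC
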