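import Pool.Agent.Lib.H87.HopfKC.Cert.Def

set_option maxRecDepth 100000

namespace HopfKC

theorem row_18 : row 18 = true := by decide +kernel
theorem row_31 : row 31 = true := by decide +kernel
theorem row_35 : row 35 = true := by decide +kernel
theorem row_37 : row 37 = true := by decide +kernel
theorem row_40 : row 40 = true := by decide +kernel
theorem row_45 : row 45 = true := by decide +kernel

end HopfKC
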