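import Pool.Agent.Lib.H87.HopfKC.Cert.Def

set_option maxRecDepth 100000

namespace HopfKC

theorem row_2 : row 2 = true := by decide +kernel
theorem row_11 : row 11 = true := by decide +kernel
theorem row_21 : row 21 = true := by decide +kernel
theorem row_36 : row 36 = true := by decide +kernel
theorem row_38 : row 38 = true := by decide +kernel
theorem row_43 : row 43 = true := by decide +kernel

end HopfKC
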