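import Pool.Agent.Lib.H87.HopfKC.Cert.Def

set_option maxRecDepth 100000

namespace HopfKC

theorem row_6 : row 6 = true := by decide +kernel
theorem row_14 : row 14 = true := by decide +kernel
theorem row_25 : row 25 = true := by decide +kernel
theorem row_29 : row 29 = true := by decide +kernel
theorem row_30 : row 30 = true := by decide +kernel
theorem row_39 : row 39 = true := by decide +kernel

end HopfKC
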