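import Pool.Agent.Lib.H87.HopfKC.Cert.Def

set_option maxRecDepth 100000

namespace HopfKC

theorem row_3 : row 3 = true := by decide +kernel
theorem row_5 : row 5 = true := by decide +kernel
theorem row_12 : row 12 = true := by decide +kernel
theorem row_22 : row 22 = true := by decide +kernel
theorem row_23 : row 23 = true := by decide +kernel
theorem row_28 : row 28 = true := by decide +kernel

end HopfKC
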