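import Pool.Agent.Lib.H87.HopfKC.Cert.Def

set_option maxRecDepth 100000

namespace HopfKC

theorem row_4 : row 4 = true := by decide +kernel
theorem row_7 : row 7 = true := by decide +kernel
theorem row_15 : row 15 = true := by decide +kernel
theorem row_16 : row 16 = true := by decide +kernel
theorem row_32 : row 32 = true := by decide +kernel
theorem row_41 : row 41 = true := by decide +kernel

end HopfKC
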