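import Pool.Agent.Lib.H87.HopfKC.Cert.Chk0
import Pool.Agent.Lib.H87.HopfKC.Cert.Chk1
import Pool.Agent.Lib.H87.HopfKC.Cert.Chk2
import Pool.Agent.Lib.H87.HopfKC.Cert.Chk3
import Pool.Agent.Lib.H87.HopfKC.Cert.Chk4
import Pool.Agent.Lib.H87.HopfKC.Cert.Chk5
import Pool.Agent.Lib.H87.HopfKC.Cert.Chk6
import Pool.Agent.Lib.H87.HopfKC.Cert.Chk7

/-!
# All rows are checked
-/

namespace HopfKC

theorem row_all : ∀ k < 76, row k = true := by
  intro k hk
  interval_cases k
  · exact row_0
  · exact row_1
  · exact row_2
  · exact row_3
  · exact row_4
  · exact row_5
  · exact row_6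
  · exact row_7
  · exact row_8
  · exact row_9
  · exact row_10
  · exact row_11
  · exact row_12
  · exact row_13
  · exact row_14
  · exact row_15
  · exact row_16
  · exact row_17
  · exact row_18
  · exact row_19
  · exact row_20
  · exact row_21
  · exact row_22
  · exact row_23
  · exact row_24
  · exact row_25
  · exact row_26
  · exact row_27
  · exact row_28
  · exact row_29
  · exact row_30
  · exact row_31
  · exact row_32
  · exact row_33
  · exact row_34
  · exact row_35
  · exact row_36
  · exact row_37
  · exact row_38
  · exact row_39
  · exact row_40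
  · exact row_41
  · exact row_42
  · exact row_43
  · exact row_44
  · exact row_45
  · exact row_46
  · exact row_47
  · exact row_48
  · exact row_49
  · exact row_50
  · exact row_51
  · exact row_52
  · exact row_53
  · exact row_54
  · exact row_55
  · exact row_56
  · exact row_57
  · exact row_58
  · exact row_59
  · exact row_60
  · exact row_61
  · exact row_62
  · exact row_63
  · exact row_64
  · exact row_65
  · exact row_66
  · exact row_67
  · exact row_68
  · exact row_69
  · exact row_70
  · exact row_71
  · exact row_72
  · exact row_73
  · exact row_74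
  · exact row_75

end HopfKC
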