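import Pool.Agent.Lib.H87.HopfKC.Cert.Ker

namespace HopfKC

/-- Data. -/
def e4T_0 : Tr ℕ := .nd 47 (.nd 26 (.nd 11 (.nd 3 (.nd 1 (.lf 12254775862578820785027154893513584775171201) (.nd 2 (.lf 558077863491354511770881) (.lf 162906299337218))) (.nd 7 (.nd 4 (.lf 162910594370051) (.nd 5 (.lf 162820399139332) (.lf 0))) (.nd 10 (.nd 8 (.lf 162833284237831) (.lf 0)) (.lf 558077862646929581245706)))) (.nd 18 (.nd 13 (.nd 12 (.lf 162919184632331) (.lf 0)) (.nd 16 (.nd 14 (.lf 2484439565) (.lf 0)) (.nd 17 (.lf 2484636176) (.lf 0)))) (.nd 24 (.nd 21 (.nd 19 (.lf 558040969158760687306002) (.lf 0)) (.nd 22 (.lf 35349) (.lf 0))) (.nd 25 (.lf 35352) (.lf 129937628169497))))) (.nd 39 (.nd 31 (.nd 27 (.lf 2485750298) (.nd 28 (.lf 2485815835) (.nd 29 (.lf 162897709926940) (.lf 0)))) (.nd 34 (.nd 32 (.lf 129937627972895) (.nd 33 (.lf 2485946912) (.lf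 0))) (.nd 36 (.nd 35 (.lf 2485619234) (.lf 0)) (.nd 37 (.lf 129929038038308) (.lf 0))))) (.nd 43 (.nd 41 (.nd 40 (.lf 35367) (.lf 34088)) (.nd 42 (.lf 35369) (.lf 35370))) (.nd 45 (.nd 44 (.lf 34091) (.lf 35372)) (.nd 46 (.lf 34093) (.lf 2318502446)))))) (.nd 61 (.nd 54 (.nd 50 (.nd 48 (.lf 35375) (.nd 49 (.lf 35376) (.lf 35377))) (.nd 52 (.nd 51 (.lf 35378) (.lf 2318830131)) (.nd 53 (.lf 35380) (.lf 35381)))) (.nd 57 (.nd 55 (.lf 35382) (.nd 56 (.lf 35383) (.lf 2319157816))) (.nd 59 (.nd 58 (.lf 35385) (.lf 35386)) (.nd 60 (.lf 35387) (.lf 35388))))) (.nd 68 (.nd 64 (.nd 62 (.lf 2319485501) (.nd 63 (.lf 35390) (.lf 35391))) (.nd 66 (.nd 65 (.lf 35392) (.lf 35393)) (.nd 67 (.lf 2319813186) (.lf 35395)))) (.nd 72 (.nd 70 (.nd 69 (.lf 35396) (.lf 35397)) (.nd 71 (.lf 35398) (.lf 2320140871))) (.nd 74 (.nd 73 (.lf 35400) (.lf 35401)) (.nd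 75 (.lf 35402) (.lf 35403))))))
/-- Data. -/
def e4T_1 : Tr ℕ := .nd 122 (.nd 103 (.nd 89 (.nd 80 (.nd 78 (.nd 77 (.lf 0) (.lf 11122298865238317026500705356451347083985025)) (.nd 79 (.lf 33282) (.lf 33283))) (.nd 86 (.nd 83 (.nd 81 (.lf 33284) (.lf 0)) (.nd 84 (.lf 33287) (.lf 0))) (.nd 87 (.lf 171706684692510607185127662000689807242) (.nd 88 (.lf 33291) (.lf 0))))) (.nd 97 (.nd 92 (.nd 90 (.lf 2081783309) (.lf 0)) (.nd 94 (.nd 93 (.lf 2081979920) (.lf 0)) (.nd 95 (.lf 2620036082344217028581659881602962) (.lf 0)))) (.nd 101 (.nd 100 (.nd 98 (.lf 32277) (.lf 0)) (.lf 32280)) (.nd 102 (.lf 39978577916341057779696369561) (.lf 2083094042))))) (.nd 114 (.nd 108 (.nd 104 (.lf 2083159579) (.nd 107 (.nd 105 (.lf 33308) (.lf 0)) (.lf 628914153380045599834015))) (.nd 111 (.nd 110 (.nd 109 (.lf 2016181792) (.lf 0)) (.lf 2015854114)) (.nd 112 (.lf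 2082898979) (.nd 113 (.lf 9308242426741686180) (.lf 0))))) (.nd 118 (.nd 116 (.nd 115 (.lf 33830) (.lf 32295)) (.nd 117 (.lf 142032440623016) (.lf 32297))) (.nd 120 (.nd 119 (.lf 32298) (.lf 2167242667)) (.nd 121 (.lf 32300) (.lf 32685)))))) (.nd 137 (.nd 129 (.nd 125 (.nd 123 (.lf 2184282670) (.nd 124 (.lf 33327) (.lf 33328))) (.nd 127 (.nd 126 (.lf 33329) (.lf 33330)) (.nd 128 (.lf 2117500467) (.lf 2085191220)))) (.nd 133 (.nd 131 (.nd 130 (.lf 2219081269) (.lf 32310)) (.nd 132 (.lf 32311) (.lf 2117828152))) (.nd 135 (.nd 134 (.lf 2219343417) (.lf 2084798010)) (.nd 136 (.lf 32315) (.lf 32316))))) (.nd 144 (.nd 140 (.nd 138 (.lf 2185265725) (.nd 139 (.lf 33342) (.lf 33343))) (.nd 142 (.nd 141 (.lf 33344) (.lf 33345)) (.nd 143 (.lf 2118483522) (.lf 32323)))) (.nd 148 (.nd 146 (.nd 145 (.lf 32324) (.lf 32325)) (.nd 147 (.lf 32326) (.lf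 2118811207))) (.nd 150 (.nd 149 (.lf 32328) (.lf 32329)) (.nd 151 (.lf 32330) (.lf 32331))))))
/-- Data. -/
def e4T_2 : Tr ℕ := .nd 184 (.nd 177 (.nd 159 (.nd 156 (.nd 154 (.lf 0) (.nd 155 (.lf 167718939856998579414625309082420150794) (.lf 0))) (.nd 157 (.lf 2215412741) (.nd 158 (.lf 2216002573) (.lf 0)))) (.nd 164 (.nd 160 (.lf 2215609352) (.nd 161 (.lf 2216199184) (.lf 0))) (.nd 167 (.nd 165 (.lf 2216002573) (.lf 0)) (.nd 168 (.lf 2216199184) (.lf 0))))) (.nd 180 (.nd 178 (.lf 31785) (.nd 179 (.lf 132136752086056) (.lf 33836))) (.nd 182 (.nd 181 (.lf 2216789021) (.lf 2284291106)) (.nd 183 (.lf 2217113635) (.lf 31785))))) (.nd 200 (.nd 188 (.nd 185 (.lf 33834) (.nd 187 (.nd 186 (.lf 2284291106) (.lf 0)) (.lf 33829))) (.nd 198 (.nd 189 (.lf 30761) (.nd 190 (.lf 30758) (.lf 0))) (.nd 199 (.lf 2218166323) (.lf 2219411508)))) (.nd 204 (.nd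 201 (.lf 2084866101) (.nd 202 (.lf 2285274163) (.nd 203 (.lf 34871) (.lf 0)))) (.nd 209 (.nd 205 (.lf 31819) (.nd 206 (.lf 33862) (.lf 0))) (.nd 210 (.lf 2219473991) (.nd 211 (.lf 2084930626) (.lf 0))))))
/-- Data. -/
def e4T_3 : Tr ℕ := .nd 259 (.nd 247 (.nd 235 (.nd 232 (.nd 231 (.lf 0) (.lf 167718939856998579414625309082420150794)) (.nd 234 (.nd 233 (.lf 2215871494) (.lf 0)) (.lf 2216002573))) (.nd 241 (.nd 237 (.nd 236 (.lf 2216068105) (.lf 0)) (.nd 238 (.lf 2216199184) (.lf 0))) (.nd 244 (.nd 242 (.lf 33811) (.lf 0)) (.nd 245 (.lf 33814) (.lf 0))))) (.nd 255 (.nd 253 (.nd 250 (.nd 248 (.lf 33813) (.lf 0)) (.nd 251 (.lf 33816) (.lf 0))) (.nd 254 (.lf 31786) (.lf 33836))) (.nd 257 (.nd 256 (.lf 136534731488296) (.lf 2217051166)) (.nd 258 (.lf 2015790115) (.lf 2217183266))))) (.nd 275 (.nd 262 (.nd 260 (.lf 30762) (.nd 261 (.lf 33833)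 (.lf 2217113635))) (.nd 265 (.nd 264 (.nd 263 (.lf 34853) (.lf 0)) (.lf 31786)) (.nd 274 (.nd 266 (.lf 33831) (.lf 0)) (.lf 2218494008)))) (.nd 280 (.nd 277 (.nd 276 (.lf 2085128249) (.lf 2219018298)) (.nd 278 (.lf 2285601848) (.nd 279 (.lf 34876) (.lf 0)))) (.nd 285 (.nd 281 (.lf 2219477063) (.nd 282 (.lf 2084927554) (.lf 0))) (.nd 286 (.lf 33867) (.nd 287 (.lf 31814) (.lf 0))))))
/-- Data. -/
def e4T_4 : Tr ℕ := .nd 328 (.nd 318 (.nd 314 (.nd 309 (.nd 308 (.lf 0) (.lf 167718939858236519453910693755298676234)) (.nd 310 (.lf 2217313306) (.nd 311 (.lf 2217378843) (.lf 0)))) (.nd 316 (.nd 315 (.lf 31765) (.lf 2215937038)) (.nd 317 (.lf 2217313306) (.lf 132136751627282)))) (.nd 323 (.nd 320 (.nd 319 (.lf 2284618784) (.lf 0)) (.nd 321 (.lf 33831) (.nd 322 (.lf 2217113635) (.lf 0)))) (.nd 325 (.nd 324 (.lf 2217378843) (.lf 2284618784)) (.nd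 327 (.nd 326 (.lf 2016115743) (.lf 0)) (.lf 2015790115))))) (.nd 363 (.nd 358 (.nd 355 (.nd 329 (.lf 33826) (.lf 0)) (.nd 357 (.nd 356 (.lf 33865) (.lf 0)) (.lf 31807))) (.nd 360 (.nd 359 (.lf 31817) (.lf 33860)) (.nd 362 (.nd 361 (.lf 31816) (.lf 0)) (.lf 33854)))) (.nd 366 (.nd 364 (.lf 33864) (.nd 365 (.lf 31811) (.lf 2219149378))) (.nd 368 (.nd 367 (.lf 34883) (.lf 34884)) (.nd 369 (.lf 2286257218) (.nd 370 (.lf 34886) (.lf 0))))))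
/-- Data. -/
def e4T_5 : Tr ℕ := .nd 403 (.nd 394 (.nd 389 (.nd 386 (.nd 385 (.lf 0) (.lf 33837)) (.nd 388 (.nd 387 (.lf 30764) (.lf 0)) (.lf 30759))) (.nd 392 (.nd 390 (.lf 2217116707) (.lf 0)) (.nd 393 (.lf 31789) (.lf 2217313306)))) (.nd 399 (.nd 395 (.lf 33834) (.nd 397 (.nd 396 (.lf 33831) (.lf 0)) (.nd 398 (.lf 2015724574) (.lf 0)))) (.nd 401 (.nd 400 (.lf 33836) (.lf 30762)) (.nd 402 (.lf 2284422170) (.lf 2015790115))))) (.nd 433 (.nd 428 (.nd 404 (.lf 2418374686) (.nd 426 (.nd 405 (.lf 2015462429) (.lf 0)) (.nd 427 (.lf 30793) (.lf 0)))) (.nd 430 (.nd 429 (.lf 34879) (.lf 31817)) (.nd 431 (.lf 33860) (.nd 432 (.lf 31819) (.lf 0))))) (.nd 436 (.nd 434 (.lf 33857) (.nd 435 (.lf 30795) (.lf 34886))) (.nd 439 (.nd 438 (.nd 437 (.lf 2219477063) (.lf 0)) (.lf 2084599869)) (.nd 440 (.lf 2286584903) (.nd 441 (.lf 2017819714) (.lf 0))))))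
/-- Data. -/
def e4T_6 : Tr ℕ := .nd 479 (.nd 471 (.nd 468 (.nd 464 (.nd 462 (.lf 0) (.nd 463 (.lf 33835) (.lf 0))) (.nd 465 (.lf 2217116707) (.nd 466 (.lf 30754) (.lf 0)))) (.nd 469 (.lf 33836) (.nd 470 (.lf 2284487707) (.lf 30761)))) (.nd 475 (.nd 472 (.lf 2217113635) (.nd 473 (.lf 2015724574) (.nd 474 (.lf 2418112541) (.lf 0)))) (.nd 477 (.nd 476 (.lf 31787) (.lf 33833)) (.nd 478 (.lf 2217378843) (.lf 33826))))) (.nd 509 (.nd 505 (.nd 502 (.nd 480 (.lf 2015462429) (.lf 0)) (.nd 504 (.nd 503 (.lf 34888) (.lf 0)) (.lf 30782))) (.nd 506 (.lf 33864) (.nd 507 (.lf 31811) (.nd 508 (.lf 2219473991) (.lf 0))))) (.nd 512 (.nd 510 (.lf 2084602941) (.nd 511 (.lf 2286584903) (.lf 2017819714))) (.nd 515 (.nd 514 (.nd 513 (.lf 33867) (.lf 0)) (.lf 31809)) (.nd 516 (.lf 34891) (.nd 517 (.lf 30790) (.lf 0))))))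
/-- Data. -/
def e4T_7 : Tr ℕ := .nd 556 (.nd 547 (.nd 542 (.nd 540 (.nd 539 (.lf 0) (.lf 167718939858236519453910693755298676234)) (.nd 541 (.lf 2217313306) (.lf 2217378843))) (.nd 545 (.nd 543 (.lf 31768) (.nd 544 (.lf 2216133649) (.lf 0))) (.nd 546 (.lf 33831) (.lf 2015790115)))) (.nd 552 (.nd 548 (.lf 2217313306) (.nd 549 (.lf 136534731029522) (.nd 550 (.lf 2217510944) (.lf 0)))) (.nd 554 (.nd 553 (.lf 2217113635) (.lf 33826)) (.nd 555 (.lf 2217378843) (.lf 2217510944))))) (.nd 591 (.nd 586 (.nd 583 (.nd 557 (.lf 2083223583) (.lf 0)) (.nd 584 (.lf 30788) (.nd 585 (.lf 33855) (.lf 0)))) (.nd 588 (.nd 587 (.lf 31812) (.lf 31817)) (.nd 589 (.lf 34883) (.nd 590 (.lf 31806) (.lf 0))))) (.nd 594 (.nd 592 (.lf 33859) (.nd 593 (.lf 33864) (.lf 2219477063))) (.nd 596 (.nd 595 (.lf 34888) (.lf 34889)) (.nd 597 (.lf 2286584903) (.nd 598 (.lf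 34891) (.lf 0))))))
/-- Data. -/
def e4T_8 : Tr ℕ := .nd 632 (.nd 625 (.nd 622 (.nd 617 (.nd 616 (.lf 0) (.lf 33828)) (.nd 620 (.nd 618 (.lf 30752) (.lf 0)) (.nd 621 (.lf 33831) (.lf 0)))) (.nd 623 (.lf 2217048094) (.nd 624 (.lf 31780) (.lf 2217313306)))) (.nd 629 (.nd 627 (.nd 626 (.lf 33819) (.lf 0)) (.nd 628 (.lf 2217113635) (.lf 2015727646))) (.nd 630 (.lf 2216785949) (.nd 631 (.lf 33824) (.lf 30747))))) (.nd 660 (.nd 657 (.nd 654 (.nd 633 (.lf 2217314330) (.lf 0)) (.nd 655 (.lf 33860) (.nd 656 (.lf 30783) (.lf 0)))) (.nd 658 (.lf 31812) (.nd 659 (.lf 31817) (.lf 31814)))) (.nd 664 (.nd 662 (.nd 661 (.lf 31809) (.lf 0)) (.nd 663 (.lf 30790) (.lf 30795))) (.nd 667 (.nd 665 (.lf 2219146306) (.nd 666 (.lf 2218821693) (.lf 0))) (.nd 668 (.lf 2286257218) (.nd 669 (.lf 2286584903) (.lf 0))))))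
/-- Data. -/
def e4T_9 : Tr ℕ := .nd 730 (.nd 701 (.nd 698 (.nd 696 (.nd 693 (.lf 0) (.nd 694 (.lf 33823) (.lf 0))) (.nd 697 (.lf 2015790115) (.lf 2217048094))) (.nd 699 (.lf 2015465501) (.nd 700 (.lf 33824) (.lf 2217379867)))) (.nd 706 (.nd 703 (.nd 702 (.lf 30746) (.lf 0)) (.nd 704 (.lf 33826) (.nd 705 (.lf 2216785949) (.lf 0)))) (.nd 707 (.lf 31775) (.nd 708 (.lf 33818) (.nd 709 (.lf 2217378843) (.lf 0)))))) (.nd 738 (.nd 734 (.nd 731 (.lf 31811) (.nd 733 (.nd 732 (.lf 34878) (.lf 0)) (.lf 33859))) (.nd 735 (.lf 33864) (.nd 736 (.lf 2219149378) (.nd 737 (.lf 2218818621) (.lf 0))))) (.nd 741 (.nd 739 (.lf 2286257218) (.nd 740 (.lf 2286584903) (.lf 33862))) (.nd 743 (.nd 742 (.lf 33857) (.lf 0)) (.nd 744 (.lf 34886) (.nd 745 (.lf 34891) (.lf 0))))))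
/-- Data. -/
def e4T_10 : Tr ℕ := .nd 809 (.nd 792 (.nd 784 (.nd 776 (.nd 771 (.nd 770 (.lf 0) (.lf 169712812274754593299876485541554978954)) (.nd 773 (.nd 772 (.lf 33291) (.lf 0)) (.nd 774 (.lf 33293) (.lf 0)))) (.nd 778 (.nd 777 (.lf 33296) (.lf 0)) (.nd 781 (.nd 779 (.lf 2620036082344217028581659881602962) (.lf 0)) (.nd 782 (.lf 32277) (.lf 0))))) (.nd 787 (.nd 785 (.lf 32280) (.nd 786 (.lf 41216517955914668430747205529) (.lf 2083094042))) (.nd 790 (.nd 788 (.lf 2016050715) (.nd 789 (.lf 2015854108) (.lf 0))) (.nd 791 (.lf 2082833438) (.lf 610024399218190867267487))))) (.nd 802 (.nd 797 (.nd 794 (.nd 793 (.lf 2083290656) (.lf 0)) (.nd 796 (.nd 795 (.lf 33314) (.lf 0)) (.lf 9308238028762283940))) (.nd 800 (.nd 799 (.nd 798 (.lf 33829) (.lf 0)) (.lf 32295)) (.nd 801 (.lf 142032440623016) (.lf 32297)))) (.nd 805 (.nd 803 (.lf 32298)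 (.nd 804 (.lf 2167242667) (.lf 32300))) (.nd 807 (.nd 806 (.lf 32685) (.lf 2117172782)) (.nd 808 (.lf 2219540015) (.lf 2084994608)))))) (.nd 822 (.nd 815 (.nd 812 (.nd 810 (.lf 32305) (.nd 811 (.lf 32306) (.lf 2184610355))) (.nd 813 (.lf 33332) (.nd 814 (.lf 33333) (.lf 33334)))) (.nd 818 (.nd 816 (.lf 33335) (.nd 817 (.lf 2117828152) (.lf 2085125689))) (.nd 820 (.nd 819 (.lf 2219015738) (.lf 32315)) (.nd 821 (.lf 32316) (.lf 2185265725))))) (.nd 829 (.nd 825 (.nd 823 (.lf 33342) (.nd 824 (.lf 33343) (.lf 33344))) (.nd 827 (.nd 826 (.lf 33345) (.lf 2118483522)) (.nd 828 (.lf 32323) (.lf 32324)))) (.nd 832 (.nd 830 (.lf 32325) (.nd 831 (.lf 32326) (.lf 2118811207))) (.nd 834 (.nd 833 (.lf 32328) (.lf 32329)) (.nd 835 (.lf 32330) (.lf 32331))))))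
/-- Data. -/
def e4T_11 : Tr ℕ := .nd 868 (.nd 861 (.nd 852 (.nd 849 (.nd 847 (.lf 0) (.nd 848 (.lf 2559187925064065237649922318762514) (.lf 0))) (.nd 850 (.lf 2215937038) (.nd 851 (.lf 33813) (.lf 0)))) (.nd 856 (.nd 853 (.lf 2216133649) (.nd 854 (.lf 33816) (.lf 0))) (.nd 859 (.nd 857 (.lf 33813) (.lf 0)) (.nd 860 (.lf 33816) (.lf 0))))) (.nd 864 (.nd 862 (.lf 30764) (.nd 863 (.lf 33834) (.lf 33833))) (.nd 866 (.nd 865 (.lf 2284226595) (.lf 2217048094)) (.nd 867 (.lf 33825) (.lf 31788))))) (.nd 884 (.nd 871 (.nd 869 (.lf 136534798596136) (.nd 870 (.lf 30757) (.lf 2217116707))) (.nd 874 (.nd 872 (.lf 33831) (.nd 873 (.lf 31788) (.lf 0))) (.nd 883 (.nd 875 (.lf 33831) (.lf 0)) (.lf 2018147399)))) (.nd 890 (.nd 888 (.nd 887 (.nd 885 (.lf 2286257218) (.lf 0)) (.lf 2218494008)) (.nd 889 (.lf 2219345977) (.lf 2084800570))) (.nd 893 (.nd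 891 (.lf 2285601848) (.nd 892 (.lf 34876) (.lf 0))) (.nd 894 (.lf 31817) (.nd 895 (.lf 33860) (.lf 0))))))
/-- Data. -/
def e4T_12 : Tr ℕ := .nd 958 (.nd 931 (.nd 926 (.nd 925 (.nd 924 (.lf 0) (.lf 33837)) (.lf 2217313306)) (.nd 927 (.lf 30762) (.nd 929 (.nd 928 (.lf 30759) (.lf 0)) (.nd 930 (.lf 2217051166) (.lf 0))))) (.nd 934 (.nd 932 (.lf 30764) (.nd 933 (.lf 33834) (.lf 2284422170))) (.nd 935 (.lf 2418440227) (.nd 936 (.lf 2015724574) (.nd 937 (.lf 2216785949) (.lf 0)))))) (.nd 966 (.nd 962 (.nd 960 (.nd 959 (.lf 33865) (.lf 0)) (.nd 961 (.lf 31807) (.lf 34889))) (.nd 963 (.lf 30788) (.nd 965 (.nd 964 (.lf 34891) (.lf 0)) (.lf 30785)))) (.nd 970 (.nd 967 (.lf 33867) (.nd 968 (.lf 31814) (.nd 969 (.lf 2018147399) (.lf 0)))) (.nd 971 (.lf 2285929533) (.nd 972 (.lf 2085255239) (.nd 973 (.lf 2219149378) (.lf 0))))))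
/-- Data. -/
def e4T_13 : Tr ℕ := .nd 1038 (.nd 1010 (.nd 1007 (.nd 1002 (.nd 1001 (.lf 0) (.lf 2559189163004104523034595264396818)) (.nd 1003 (.lf 2217509920) (.lf 0))) (.nd 1008 (.lf 2284487707) (.nd 1009 (.lf 2217509920) (.lf 2015919129)))) (.nd 1034 (.nd 1012 (.nd 1011 (.lf 2015724574) (.lf 0)) (.nd 1013 (.lf 33820) (.lf 0))) (.nd 1036 (.nd 1035 (.lf 31819) (.lf 0)) (.nd 1037 (.lf 33857) (.lf 33867))))) (.nd 1049 (.nd 1046 (.nd 1044 (.nd 1039 (.lf 31814) (.lf 0)) (.nd 1045 (.lf 33864) (.lf 0))) (.nd 1047 (.lf 31806) (.nd 1048 (.lf 31816) (.lf 33859)))) (.nd 1051 (.nd 1050 (.lf 2219149378) (.lf 34883)) (.nd 1052 (.lf 34884) (.nd 1053 (.lf 2286257218) (.nd 1054 (.lf 34886) (.lf 0))))))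
/-- Data. -/
def e4T_14 : Tr ℕ := .nd 1113 (.nd 1085 (.nd 1081 (.nd 1079 (.nd 1078 (.lf 0) (.lf 33832)) (.nd 1080 (.lf 2217051166) (.lf 0))) (.nd 1083 (.nd 1082 (.lf 30748) (.lf 0)) (.nd 1084 (.lf 33833) (.lf 31784)))) (.nd 1087 (.nd 1086 (.lf 2217509920) (.lf 2216785949)) (.nd 1110 (.nd 1088 (.lf 33820) (.lf 0)) (.nd 1112 (.nd 1111 (.lf 2219473991) (.lf 0)) (.lf 2084602941))))) (.nd 1119 (.nd 1115 (.nd 1114 (.lf 2085255239) (.lf 2219149378)) (.nd 1117 (.nd 1116 (.lf 30792) (.lf 0)) (.nd 1118 (.lf 34878) (.lf 31816)))) (.nd 1122 (.nd 1120 (.lf 33859) (.nd 1121 (.lf 31817) (.lf 0))) (.nd 1123 (.lf 33855) (.nd 1124 (.lf 30793) (.nd 1125 (.lf 34884) (.lf 0))))))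
/-- Data. -/
def e4T_15 : Tr ℕ := .nd 1187 (.nd 1161 (.nd 1157 (.nd 1156 (.nd 1155 (.lf 0) (.lf 33828)) (.lf 2217313306)) (.nd 1159 (.nd 1158 (.lf 30747) (.lf 0)) (.nd 1160 (.lf 2015793187) (.lf 2217048094)))) (.nd 1163 (.nd 1162 (.lf 2015462429) (.lf 30752)) (.nd 1164 (.lf 33819) (.nd 1186 (.nd 1165 (.lf 2217314330) (.lf 0)) (.lf 33860))))) (.nd 1194 (.nd 1190 (.nd 1189 (.nd 1188 (.lf 33855) (.lf 0)) (.lf 34884)) (.nd 1191 (.lf 34889) (.nd 1192 (.lf 31814) (.nd 1193 (.lf 34881) (.lf 0))))) (.nd 1197 (.nd 1195 (.lf 33862) (.nd 1196 (.lf 33867) (.lf 2219146306))) (.nd 1199 (.nd 1198 (.lf 2017492029) (.lf 0)) (.nd 1200 (.lf 2084927554) (.nd 1201 (.lf 2085255239) (.lf 0))))))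
/-- Data. -/
def e4T_16 : Tr ℕ := .nd 1266 (.nd 1239 (.nd 1235 (.nd 1233 (.nd 1232 (.lf 0) (.lf 2559189163004104523034595264396818)) (.nd 1234 (.lf 2217509920) (.lf 0))) (.nd 1237 (.nd 1236 (.lf 2217048094) (.lf 0)) (.nd 1238 (.lf 33820) (.lf 2217379867)))) (.nd 1262 (.nd 1240 (.lf 2217509920) (.nd 1241 (.lf 2083026969) (.lf 0))) (.nd 1263 (.lf 34886) (.nd 1265 (.nd 1264 (.lf 31809) (.lf 0)) (.lf 33862))))) (.nd 1277 (.nd 1273 (.nd 1272 (.nd 1267 (.lf 33867) (.lf 0)) (.lf 30787)) (.nd 1275 (.nd 1274 (.lf 33854) (.lf 0)) (.nd 1276 (.lf 31811) (.lf 31816)))) (.nd 1279 (.nd 1278 (.lf 2219477063) (.lf 34888)) (.nd 1280 (.lf 34889) (.nd 1281 (.lf 2286584903) (.nd 1282 (.lf 34891) (.lf 0))))))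
/-- Data. -/
def e4T_17 : Tr ℕ := .nd 1342 (.nd 1315 (.nd 1312 (.nd 1311 (.nd 1309 (.lf 0) (.nd 1310 (.lf 33817) (.lf 0))) (.lf 2015462429)) (.nd 1314 (.nd 1313 (.lf 33820) (.lf 0)) (.lf 33818))) (.nd 1338 (.nd 1316 (.lf 31769) (.nd 1317 (.lf 2217509920) (.lf 0))) (.nd 1339 (.lf 2017819714) (.nd 1341 (.nd 1340 (.lf 2218818621) (.lf 0)) (.lf 2084927554))))) (.nd 1347 (.nd 1344 (.nd 1343 (.lf 2085255239) (.lf 33859)) (.nd 1346 (.nd 1345 (.lf 30782) (.lf 0)) (.lf 31811))) (.nd 1349 (.nd 1348 (.lf 31816) (.lf 31812)) (.nd 1351 (.nd 1350 (.lf 31807) (.lf 0)) (.nd 1352 (.lf 30788) (.nd 1353 (.lf 30793) (.lf 0))))))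
/-- Data. -/
def e4T_18 : Tr ℕ := .nd 1419 (.nd 1404 (.nd 1396 (.nd 1393 (.nd 1389 (.nd 1386 (.lf 0) (.nd 1387 (.lf 2589612003704141133115791100182674) (.lf 0))) (.nd 1392 (.nd 1390 (.lf 33301) (.lf 0)) (.lf 33304))) (.nd 1394 (.lf 39978596806095219634428936089) (.nd 1395 (.lf 2015985178) (.lf 2083159579)))) (.nd 1400 (.nd 1397 (.lf 2015526428) (.nd 1399 (.nd 1398 (.lf 2082571293) (.lf 0)) (.lf 610024687452965065490335))) (.nd 1401 (.lf 2083290656) (.nd 1402 (.lf 33825) (.nd 1403 (.lf 32290) (.lf 0)))))) (.nd 1412 (.nd 1409 (.nd 1407 (.nd 1405 (.lf 9020007652543463332) (.lf 0)) (.nd 1408 (.lf 33319) (.lf 142032440623016))) (.nd 1410 (.lf 32297) (.nd 1411 (.lf 32298) (.lf 2167242667)))) (.nd 1415 (.nd 1413 (.lf 32300) (.nd 1414 (.lf 32685) (.lf 2117172782))) (.nd 1417 (.nd 1416 (.lf 2085322287) (.lf 2219212336)) (.nd 1418 (.lf 32305)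 (.lf 32306)))))) (.nd 1431 (.nd 1425 (.nd 1422 (.nd 1420 (.lf 2117500467) (.nd 1421 (.lf 2219408948) (.lf 2084863541))) (.nd 1423 (.lf 32310) (.nd 1424 (.lf 32311) (.lf 2184938040)))) (.nd 1428 (.nd 1426 (.lf 33337) (.nd 1427 (.lf 33338) (.lf 33339))) (.nd 1429 (.lf 33340) (.nd 1430 (.lf 2185265725) (.lf 33342))))) (.nd 1437 (.nd 1434 (.nd 1432 (.lf 33343) (.nd 1433 (.lf 33344) (.lf 33345))) (.nd 1435 (.lf 2118483522) (.nd 1436 (.lf 32323) (.lf 32324)))) (.nd 1440 (.nd 1438 (.lf 32325) (.nd 1439 (.lf 32326) (.lf 2118811207))) (.nd 1442 (.nd 1441 (.lf 32328) (.lf 32329)) (.nd 1443 (.lf 32330) (.lf 32331))))))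
/-- Data. -/
def e4T_19 : Tr ℕ := .nd 1494 (.nd 1467 (.nd 1465 (.nd 1464 (.nd 1463 (.lf 0) (.lf 33835)) (.lf 30761)) (.nd 1466 (.lf 2217378843) (.lf 30754))) (.nd 1492 (.nd 1490 (.nd 1468 (.lf 2216789021) (.lf 0)) (.nd 1491 (.lf 31816) (.lf 0))) (.nd 1493 (.lf 33854) (.lf 30792)))) (.nd 1499 (.nd 1497 (.nd 1495 (.lf 34883) (.nd 1496 (.lf 2018147399) (.lf 0))) (.nd 1498 (.lf 2285929533) (.lf 2085258311))) (.nd 1502 (.nd 1500 (.lf 2219146306) (.nd 1501 (.lf 30795) (.lf 0))) (.nd 1503 (.lf 34881) (.nd 1504 (.lf 31819) (.nd 1505 (.lf 33862) (.lf 0))))))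
/-- Data. -/
def e4T_20 : Tr ℕ := .nd 1571 (.nd 1566 (.nd 1542 (.nd 1541 (.nd 1540 (.lf 0) (.lf 33832)) (.lf 2217509920)) (.nd 1543 (.lf 2216789021) (.nd 1544 (.lf 30748) (.lf 0)))) (.nd 1569 (.nd 1568 (.nd 1567 (.lf 2219477063) (.lf 0)) (.lf 2084599869)) (.nd 1570 (.lf 2085258311) (.lf 2219146306)))) (.nd 1576 (.nd 1574 (.nd 1573 (.nd 1572 (.lf 33864) (.lf 0)) (.lf 31806)) (.nd 1575 (.lf 34888) (.lf 30787))) (.nd 1579 (.nd 1578 (.nd 1577 (.lf 34889) (.lf 0)) (.lf 30783)) (.nd 1580 (.lf 33865) (.nd 1581 (.lf 31812) (.lf 0)))))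
/-- Data. -/
def e4T_21 : Tr ℕ := .nd 1650 (.nd 1645 (.nd 1642 (.nd 1617 (.lf 0) (.nd 1618 (.lf 40288048759135012932984733209) (.lf 0))) (.nd 1644 (.nd 1643 (.lf 33867) (.lf 0)) (.lf 31809))) (.nd 1647 (.nd 1646 (.lf 31819) (.lf 33862)) (.nd 1649 (.nd 1648 (.lf 31817) (.lf 0)) (.lf 33855)))) (.nd 1658 (.nd 1651 (.lf 33865) (.nd 1657 (.nd 1652 (.lf 31812) (.lf 0)) (.lf 2219149378))) (.nd 1660 (.nd 1659 (.lf 34883) (.lf 34884)) (.nd 1661 (.lf 2286257218) (.nd 1662 (.lf 34886) (.lf 0)))))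
/-- Data. -/
def e4T_22 : Tr ℕ := .nd 1723 (.nd 1718 (.nd 1695 (.nd 1694 (.lf 0) (.lf 33823)) (.nd 1696 (.lf 30746) (.nd 1697 (.lf 2217378843) (.lf 0)))) (.nd 1721 (.nd 1719 (.lf 31811) (.nd 1720 (.lf 31806) (.lf 0))) (.nd 1722 (.lf 30787) (.lf 30792)))) (.nd 1728 (.nd 1726 (.nd 1724 (.lf 2219149378) (.nd 1725 (.lf 2017492029) (.lf 0))) (.nd 1727 (.lf 2084930626) (.lf 2085258311))) (.nd 1731 (.nd 1729 (.lf 33862) (.nd 1730 (.lf 30785) (.lf 0))) (.nd 1732 (.lf 31814) (.nd 1733 (.lf 31819) (.lf 0)))))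
/-- Data. -/
def e4T_23 : Tr ℕ := .nd 1800 (.nd 1795 (.nd 1772 (.nd 1771 (.lf 0) (.lf 33817)) (.nd 1794 (.nd 1773 (.lf 2217509920) (.lf 0)) (.lf 2017819714))) (.nd 1798 (.nd 1797 (.nd 1796 (.lf 2218821693) (.lf 0)) (.lf 2084930626)) (.nd 1799 (.lf 2085258311) (.lf 33859)))) (.nd 1804 (.nd 1802 (.nd 1801 (.lf 33854) (.lf 0)) (.nd 1803 (.lf 34883) (.lf 34888))) (.nd 1807 (.nd 1805 (.lf 31812) (.nd 1806 (.lf 34879) (.lf 0))) (.nd 1808 (.lf 33860) (.nd 1809 (.lf 33865) (.lf 0)))))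
/-- Data. -/
def e4T_24 : Tr ℕ := .nd 1878 (.nd 1873 (.nd 1870 (.nd 1848 (.lf 0) (.nd 1849 (.lf 40288048759135012932984733209) (.lf 0))) (.nd 1871 (.lf 30790) (.nd 1872 (.lf 33857) (.lf 0)))) (.nd 1875 (.nd 1874 (.lf 31814) (.lf 31819)) (.nd 1876 (.lf 34884) (.nd 1877 (.lf 31807) (.lf 0))))) (.nd 1886 (.nd 1879 (.lf 33860) (.nd 1885 (.nd 1880 (.lf 33865) (.lf 0)) (.lf 2219477063))) (.nd 1888 (.nd 1887 (.lf 34888) (.lf 34889)) (.nd 1889 (.lf 2286584903) (.nd 1890 (.lf 34891) (.lf 0)))))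
/-- Data. -/
def e4T_25 : Tr ℕ := .nd 1953 (.nd 1942 (.nd 1932 (.nd 1927 (.nd 1926 (.nd 1925 (.lf 0) (.lf 39514343318239458207943590041)) (.lf 33306)) (.nd 1928 (.lf 33307) (.nd 1931 (.nd 1929 (.lf 33308) (.lf 0)) (.lf 610024687448566951870367)))) (.nd 1939 (.nd 1934 (.nd 1933 (.lf 33312) (.lf 0)) (.nd 1936 (.nd 1935 (.lf 2082962978) (.lf 0)) (.nd 1937 (.lf 9308238028695175076) (.lf 0)))) (.nd 1940 (.lf 32295) (.nd 1941 (.lf 142032440623016) (.lf 32297))))) (.nd 1947 (.nd 1944 (.nd 1943 (.lf 32298) (.lf 2167242667)) (.nd 1945 (.lf 32300) (.nd 1946 (.lf 32685) (.lf 2184282670)))) (.nd 1950 (.nd 1948 (.lf 33327) (.nd 1949 (.lf 33328) (.lf 33329))) (.nd 1951 (.lf 33330) (.nd 1952 (.lf 2117500467) (.lf 2219408948)))))) (.nd 1964 (.nd 1958 (.nd 1955 (.nd 1954 (.lf 32309) (.lf 32310)) (.nd 1956 (.lf 2084535863) (.nd 1957 (.lf 2117828152) (.lf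 2085125689)))) (.nd 1961 (.nd 1959 (.lf 32314) (.nd 1960 (.lf 32315) (.lf 2218688060))) (.nd 1962 (.lf 2118155837) (.nd 1963 (.lf 32318) (.lf 32319))))) (.nd 1970 (.nd 1967 (.nd 1965 (.lf 32320) (.nd 1966 (.lf 32321) (.lf 2185593410))) (.nd 1968 (.lf 33347) (.nd 1969 (.lf 33348) (.lf 33349)))) (.nd 1973 (.nd 1971 (.lf 33350) (.nd 1972 (.lf 2118811207) (.lf 32328))) (.nd 1974 (.lf 32329) (.nd 1975 (.lf 32330) (.lf 32331))))))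
/-- Data. -/
def e4T_26 : Tr ℕ := .nd 2024 (.nd 2009 (.nd 2004 (.nd 2002 (.lf 0) (.nd 2003 (.lf 595857371823877451448863) (.lf 0))) (.nd 2005 (.lf 2216789021) (.nd 2006 (.lf 2217182242) (.lf 0)))) (.nd 2022 (.nd 2010 (.lf 2217182242) (.lf 0)) (.nd 2023 (.lf 2218166323) (.lf 2085193780)))) (.nd 2028 (.nd 2025 (.lf 34869) (.nd 2026 (.lf 2285274163) (.nd 2027 (.lf 2218756151) (.lf 0)))) (.nd 2033 (.nd 2031 (.nd 2029 (.lf 33867) (.lf 0)) (.nd 2032 (.lf 31809) (.lf 0))) (.nd 2036 (.nd 2034 (.lf 2085258311) (.lf 0)) (.nd 2037 (.lf 2218818621) (.lf 0)))))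
/-- Data. -/
def e4T_27 : Tr ℕ := .nd 2100 (.nd 2086 (.nd 2080 (.nd 2079 (.lf 0) (.lf 595857371823877451448863)) (.nd 2082 (.nd 2081 (.lf 2217051166) (.lf 0)) (.nd 2083 (.lf 2217182242) (.lf 0)))) (.nd 2098 (.nd 2089 (.nd 2087 (.lf 33829) (.lf 0)) (.nd 2090 (.lf 33831) (.lf 0))) (.nd 2099 (.lf 2218494008) (.lf 2219345977)))) (.nd 2104 (.nd 2101 (.lf 34874) (.nd 2102 (.lf 2285601848) (.nd 2103 (.lf 2084472892) (.lf 0)))) (.nd 2109 (.nd 2107 (.nd 2105 (.lf 2085255239) (.lf 0)) (.nd 2108 (.lf 2218821693) (.lf 0))) (.nd 2112 (.nd 2110 (.lf 31819) (.lf 0)) (.nd 2113 (.lf 33857) (.lf 0)))))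
/-- Data. -/
def e4T_28 : Tr ℕ := .nd 2180 (.nd 2162 (.nd 2159 (.nd 2157 (.nd 2156 (.lf 0) (.lf 595857371828275430850079)) (.nd 2158 (.lf 33833) (.lf 33834))) (.nd 2160 (.lf 31783) (.nd 2161 (.lf 2217116707) (.lf 33833)))) (.nd 2166 (.nd 2163 (.lf 2083355684) (.nd 2165 (.nd 2164 (.lf 33836) (.lf 0)) (.lf 33834))) (.nd 2167 (.lf 33836) (.nd 2179 (.nd 2168 (.lf 31787) (.lf 0)) (.lf 33855))))) (.nd 2187 (.nd 2184 (.nd 2181 (.lf 31812) (.nd 2182 (.lf 33865) (.nd 2183 (.lf 34879) (.lf 0)))) (.nd 2185 (.lf 31806) (.nd 2186 (.lf 33859) (.lf 31816)))) (.nd 2196 (.nd 2194 (.nd 2188 (.lf 30782) (.lf 0)) (.nd 2195 (.lf 2219477063) (.lf 34888))) (.nd 2197 (.lf 34889) (.nd 2198 (.lf 2286584903) (.nd 2199 (.lf 34891) (.lf 0))))))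
/-- Data. -/
def e4T_29 : Tr ℕ := .nd 2256 (.nd 2251 (.nd 2243 (.nd 2238 (.lf 0) (.nd 2239 (.lf 33833) (.lf 0))) (.nd 2250 (.nd 2244 (.lf 33833) (.lf 0)) (.lf 33855))) (.nd 2253 (.nd 2252 (.lf 34884) (.lf 33865)) (.nd 2255 (.nd 2254 (.lf 31807) (.lf 0)) (.lf 34881)))) (.nd 2260 (.nd 2257 (.lf 33862) (.nd 2258 (.lf 34891) (.nd 2259 (.lf 33857) (.lf 0)))) (.nd 2262 (.nd 2261 (.lf 2017492029) (.lf 2084927554)) (.nd 2263 (.lf 2018147399) (.nd 2264 (.lf 2084602941) (.lf 0)))))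
/-- Data. -/
def e4T_30 : Tr ℕ := .nd 2332 (.nd 2327 (.nd 2319 (.nd 2314 (.lf 0) (.nd 2315 (.lf 33834) (.lf 0))) (.nd 2326 (.nd 2320 (.lf 33834) (.lf 0)) (.lf 31806))) (.nd 2329 (.nd 2328 (.lf 30787) (.lf 31816)) (.nd 2331 (.nd 2330 (.lf 33854) (.lf 0)) (.lf 2017492029)))) (.nd 2336 (.nd 2333 (.lf 2084930626) (.nd 2334 (.lf 2018147399) (.nd 2335 (.lf 2084599869) (.lf 0)))) (.nd 2338 (.nd 2337 (.lf 30785) (.lf 31814)) (.nd 2339 (.lf 30795) (.nd 2340 (.lf 31809) (.lf 0)))))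
/-- Data. -/
def e4T_31 : Tr ℕ := .nd 2411 (.nd 2401 (.nd 2396 (.nd 2390 (.nd 2388 (.nd 2387 (.lf 0) (.lf 602941029636222201659551)) (.nd 2389 (.lf 33312) (.lf 0))) (.nd 2392 (.nd 2391 (.lf 33314) (.lf 0)) (.nd 2395 (.nd 2393 (.lf 9308238028695175076) (.lf 0)) (.lf 32295)))) (.nd 2398 (.nd 2397 (.lf 142032440623016) (.lf 32297)) (.nd 2399 (.lf 32298) (.nd 2400 (.lf 2167242667) (.lf 32300))))) (.nd 2406 (.nd 2403 (.nd 2402 (.lf 32685) (.lf 2117172782)) (.nd 2404 (.lf 2085322287) (.nd 2405 (.lf 32304) (.lf 32305)))) (.nd 2408 (.nd 2407 (.lf 2218884658) (.lf 2184610355)) (.nd 2409 (.lf 33332) (.nd 2410 (.lf 33333) (.lf 33334)))))) (.nd 2421 (.nd 2416 (.nd 2413 (.nd 2412 (.lf 33335) (.lf 2117828152)) (.nd 2414 (.lf 2219343417) (.nd 2415 (.lf 32314) (.lf 32315)))) (.nd 2418 (.nd 2417 (.lf 2084470332) (.lf 2118155837)) (.nd 2419 (.lf 32318)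 (.nd 2420 (.lf 32319) (.lf 32320))))) (.nd 2426 (.nd 2423 (.nd 2422 (.lf 32321) (.lf 2185593410)) (.nd 2424 (.lf 33347) (.nd 2425 (.lf 33348) (.lf 33349)))) (.nd 2429 (.nd 2427 (.lf 33350) (.nd 2428 (.lf 2118811207) (.lf 32328))) (.nd 2430 (.lf 32329) (.nd 2431 (.lf 32330) (.lf 32331))))))
/-- Data. -/
def e4T_32 : Tr ℕ := .nd 2483 (.nd 2470 (.nd 2466 (.nd 2464 (.lf 0) (.nd 2465 (.lf 9092061947996176932) (.lf 0))) (.nd 2467 (.lf 2217116707) (.nd 2468 (.lf 33831) (.lf 0)))) (.nd 2479 (.nd 2471 (.lf 33831) (.lf 0)) (.nd 2482 (.nd 2480 (.lf 2286584903) (.lf 0)) (.lf 2017492029)))) (.nd 2486 (.nd 2484 (.lf 2218494008) (.nd 2485 (.lf 2085128249) (.lf 34874))) (.nd 2489 (.nd 2487 (.lf 2285601848) (.nd 2488 (.lf 2218690620) (.lf 0))) (.nd 2492 (.nd 2490 (.lf 33865) (.lf 0)) (.nd 2493 (.lf 31807) (.lf 0)))))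
/-- Data. -/
def e4T_33 : Tr ℕ := .nd 2560 (.nd 2555 (.nd 2547 (.nd 2542 (.lf 0) (.nd 2543 (.lf 33833) (.lf 0))) (.nd 2554 (.nd 2548 (.lf 33833) (.lf 0)) (.lf 30783))) (.nd 2557 (.nd 2556 (.lf 31812) (.lf 30793)) (.nd 2559 (.nd 2558 (.lf 31807) (.lf 0)) (.lf 31809)))) (.nd 2564 (.nd 2561 (.lf 30790) (.nd 2562 (.lf 31819) (.nd 2563 (.lf 33857) (.lf 0)))) (.nd 2566 (.nd 2565 (.lf 2218821693) (.lf 2286257218)) (.nd 2567 (.lf 2219477063) (.nd 2568 (.lf 2084602941) (.lf 0)))))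
/-- Data. -/
def e4T_34 : Tr ℕ := .nd 2640 (.nd 2623 (.nd 2621 (.nd 2619 (.nd 2618 (.lf 0) (.lf 9092066346042687012)) (.nd 2620 (.lf 33836) (.lf 0))) (.nd 2622 (.lf 33834) (.lf 33836))) (.nd 2631 (.nd 2630 (.nd 2624 (.lf 31784) (.lf 0)) (.lf 31809)) (.nd 2632 (.lf 33862) (.nd 2633 (.lf 31819) (.nd 2634 (.lf 30785) (.lf 0)))))) (.nd 2650 (.nd 2642 (.nd 2641 (.lf 33854) (.lf 31811)) (.nd 2643 (.lf 33864) (.nd 2644 (.lf 34878) (.lf 0)))) (.nd 2652 (.nd 2651 (.lf 2219477063) (.lf 34888)) (.nd 2653 (.lf 34889) (.nd 2654 (.lf 2286584903) (.nd 2655 (.lf 34891) (.lf 0))))))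
/-- Data. -/
def e4T_35 : Tr ℕ := .nd 2712 (.nd 2708 (.nd 2706 (.nd 2699 (.lf 0) (.nd 2700 (.lf 33836) (.lf 0))) (.nd 2707 (.lf 2218821693) (.lf 2084930626))) (.nd 2709 (.lf 2219477063) (.nd 2711 (.nd 2710 (.lf 2285929533) (.lf 0)) (.lf 33854)))) (.nd 2716 (.nd 2713 (.lf 34883) (.nd 2714 (.lf 33864) (.nd 2715 (.lf 31806) (.lf 0)))) (.nd 2718 (.nd 2717 (.lf 34879) (.lf 33860)) (.nd 2719 (.lf 34889) (.nd 2720 (.lf 33855) (.lf 0)))))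
/-- Data. -/
def e4T_36 : Tr ℕ := .nd 2793 (.nd 2783 (.nd 2778 (.nd 2776 (.nd 2775 (.nd 2772 (.lf 0) (.nd 2773 (.lf 9200149988345675940) (.lf 0))) (.lf 33319)) (.nd 2777 (.lf 142032440623016) (.lf 32297))) (.nd 2780 (.nd 2779 (.lf 32298) (.lf 2167242667)) (.nd 2781 (.lf 32300) (.nd 2782 (.lf 32685) (.lf 2117172782))))) (.nd 2788 (.nd 2785 (.nd 2784 (.lf 2219540015) (.lf 32304)) (.nd 2786 (.lf 32305) (.nd 2787 (.lf 2084666930) (.lf 2117500467)))) (.nd 2790 (.nd 2789 (.lf 2085191220) (.lf 32309)) (.nd 2791 (.lf 32310) (.nd 2792 (.lf 2218753591) (.lf 2184938040)))))) (.nd 2802 (.nd 2797 (.nd 2795 (.nd 2794 (.lf 33337) (.lf 33338)) (.nd 2796 (.lf 33339) (.lf 33340))) (.nd 2799 (.nd 2798 (.lf 2118155837) (.lf 32318)) (.nd 2800 (.lf 32319) (.nd 2801 (.lf 32320) (.lf 32321))))) (.nd 2807 (.nd 2804 (.nd 2803 (.lf 2185593410) (.lf 33347)) (.nd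 2805 (.lf 33348) (.nd 2806 (.lf 33349) (.lf 33350)))) (.nd 2809 (.nd 2808 (.lf 2118811207) (.lf 32328)) (.nd 2810 (.lf 32329) (.nd 2811 (.lf 32330) (.lf 32331))))))
/-- Data. -/
def e4T_37 : Tr ℕ := .nd 2864 (.nd 2860 (.nd 2858 (.nd 2851 (.lf 0) (.nd 2852 (.lf 33834) (.lf 0))) (.nd 2859 (.lf 34878) (.lf 33859))) (.nd 2861 (.lf 34888) (.nd 2863 (.nd 2862 (.lf 33854) (.lf 0)) (.lf 2218818621)))) (.nd 2868 (.nd 2865 (.lf 2286257218) (.nd 2866 (.lf 2219473991) (.nd 2867 (.lf 2084599869) (.lf 0)))) (.nd 2870 (.nd 2869 (.lf 33857) (.lf 34886)) (.nd 2871 (.lf 33867) (.nd 2872 (.lf 31809) (.lf 0)))))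
/-- Data. -/
def e4T_38 : Tr ℕ := .nd 2940 (.nd 2936 (.nd 2934 (.nd 2927 (.lf 0) (.nd 2928 (.lf 33836) (.lf 0))) (.nd 2935 (.lf 2218818621) (.lf 2084927554))) (.nd 2937 (.lf 2219473991) (.nd 2939 (.nd 2938 (.lf 2285929533) (.lf 0)) (.lf 30782)))) (.nd 2944 (.nd 2941 (.lf 31811) (.nd 2942 (.lf 30792) (.nd 2943 (.lf 31806) (.lf 0)))) (.nd 2946 (.nd 2945 (.lf 31807) (.lf 30788)) (.nd 2947 (.lf 31817) (.nd 2948 (.lf 33855) (.lf 0)))))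
/-- Data. -/
def e4T_39 : Tr ℕ := .nd 3017 (.nd 3012 (.nd 3010 (.nd 3003 (.lf 0) (.nd 3004 (.lf 143131901918760) (.lf 0))) (.nd 3011 (.lf 33857) (.lf 31814))) (.nd 3015 (.nd 3013 (.lf 33867) (.nd 3014 (.lf 34881) (.lf 0))) (.nd 3016 (.lf 31807) (.lf 33860)))) (.nd 3031 (.nd 3018 (.lf 31817) (.nd 3030 (.nd 3019 (.lf 30783) (.lf 0)) (.lf 2219477063))) (.nd 3033 (.nd 3032 (.lf 34888) (.lf 34889)) (.nd 3034 (.lf 2286584903) (.nd 3035 (.lf 34891) (.lf 0)))))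
/-- Data. -/
def e4T_40 : Tr ℕ := .nd 3098 (.nd 3089 (.nd 3084 (.nd 3082 (.nd 3081 (.nd 3080 (.lf 0) (.lf 140383148015784)) (.lf 33321)) (.nd 3083 (.lf 33322) (.lf 2100133803))) (.nd 3086 (.nd 3085 (.lf 33324) (.lf 32685)) (.nd 3087 (.lf 2184282670) (.nd 3088 (.lf 33327) (.lf 33328))))) (.nd 3093 (.nd 3091 (.nd 3090 (.lf 33329) (.lf 33330)) (.nd 3092 (.lf 2117500467) (.lf 32308))) (.nd 3095 (.nd 3094 (.lf 2084863541) (.lf 32310)) (.nd 3096 (.lf 2218753591) (.nd 3097 (.lf 2117828152) (.lf 32313)))))) (.nd 3107 (.nd 3102 (.nd 3100 (.nd 3099 (.lf 2219015738) (.lf 32315)) (.nd 3101 (.lf 2084470332) (.lf 2118155837))) (.nd 3104 (.nd 3103 (.lf 32318) (.lf 32319)) (.nd 3105 (.lf 32320) (.nd 3106 (.lf 32321) (.lf 2118483522))))) (.nd 3111 (.nd 3109 (.nd 3108 (.lf 32323) (.lf 32324)) (.nd 3110 (.lf 32325) (.lf 32326))) (.nd 3113 (.nd 3112 (.lf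 2185921095) (.lf 33352)) (.nd 3114 (.lf 33353) (.nd 3115 (.lf 33354) (.lf 33355))))))
/-- Data. -/
def e4T_41 : Tr ℕ := .nd 3166 (.nd 3163 (.nd 3162 (.nd 3157 (.lf 0) (.nd 3158 (.lf 2184020523) (.lf 0))) (.lf 2218166323)) (.nd 3164 (.lf 34868) (.nd 3165 (.lf 2219083829) (.lf 2285274163)))) (.nd 3171 (.nd 3169 (.nd 3167 (.lf 2084538423) (.lf 0)) (.nd 3170 (.lf 31814) (.lf 0))) (.nd 3174 (.nd 3172 (.lf 33857) (.lf 0)) (.nd 3176 (.nd 3175 (.lf 2219146306) (.lf 0)) (.nd 3177 (.lf 2084602941) (.lf 0)))))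
/-- Data. -/
def e4T_42 : Tr ℕ := .nd 3242 (.nd 3239 (.nd 3238 (.nd 3234 (.lf 0) (.nd 3235 (.lf 2184020523) (.lf 0))) (.lf 2218494008)) (.nd 3240 (.lf 34873) (.nd 3241 (.lf 2084800570) (.lf 2285601848)))) (.nd 3247 (.nd 3245 (.nd 3243 (.lf 2218690620) (.lf 0)) (.nd 3246 (.lf 2219149378) (.lf 0))) (.nd 3250 (.nd 3248 (.lf 2084599869) (.lf 0)) (.nd 3252 (.nd 3251 (.lf 33862) (.lf 0)) (.nd 3253 (.lf 31809) (.lf 0)))))
/-- Data. -/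
def e4T_43 : Tr ℕ := .nd 3327 (.nd 3319 (.nd 3315 (.nd 3313 (.nd 3312 (.nd 3311 (.lf 0) (.lf 2142077099)) (.lf 33324)) (.nd 3314 (.lf 32685) (.lf 2117172782))) (.nd 3317 (.nd 3316 (.lf 32303) (.lf 2219212336)) (.nd 3318 (.lf 32305) (.lf 2084666930)))) (.nd 3323 (.nd 3321 (.nd 3320 (.lf 2184610355) (.lf 33332)) (.nd 3322 (.lf 33333) (.lf 33334))) (.nd 3325 (.nd 3324 (.lf 33335) (.lf 2117828152)) (.nd 3326 (.lf 32313) (.lf 2084798010))))) (.nd 3335 (.nd 3331 (.nd 3329 (.nd 3328 (.lf 32315) (.lf 2218688060)) (.nd 3330 (.lf 2118155837) (.lf 32318))) (.nd 3333 (.nd 3332 (.lf 32319) (.lf 32320)) (.nd 3334 (.lf 32321) (.lf 2118483522)))) (.nd 3339 (.nd 3337 (.nd 3336 (.lf 32323) (.lf 32324)) (.nd 3338 (.lf 32325) (.lf 32326))) (.nd 3341 (.nd 3340 (.lf 2185921095) (.lf 33352)) (.nd 3342 (.lf 33353) (.nd 3343 (.lf 33354) (.lf 33355))))))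
/-- Data. -/
def e4T_44 : Tr ℕ := .nd 3397 (.nd 3394 (.nd 3392 (.nd 3388 (.lf 0) (.nd 3389 (.lf 33325) (.lf 0))) (.nd 3393 (.lf 2017819714) (.lf 0))) (.nd 3395 (.lf 2285929533) (.nd 3396 (.lf 2218494008) (.lf 34873)))) (.nd 3399 (.nd 3398 (.lf 2219018298) (.lf 2285601848)) (.nd 3402 (.nd 3400 (.lf 2084472892) (.lf 0)) (.nd 3404 (.nd 3403 (.lf 31812) (.lf 0)) (.nd 3405 (.lf 33855) (.lf 0)))))
/-- Data. -/
def e4T_45 : Tr ℕ := .nd 3480 (.nd 3472 (.nd 3468 (.nd 3466 (.nd 3465 (.lf 0) (.lf 32941)) (.nd 3467 (.lf 2117172782) (.lf 32303))) (.nd 3470 (.nd 3469 (.lf 2084994608) (.lf 32305)) (.nd 3471 (.lf 2218884658) (.lf 2117500467)))) (.nd 3476 (.nd 3474 (.nd 3473 (.lf 32308) (.lf 2219081269)) (.nd 3475 (.lf 32310) (.lf 2084535863))) (.nd 3478 (.nd 3477 (.lf 2184938040) (.lf 33337)) (.nd 3479 (.lf 33338) (.lf 33339))))) (.nd 3488 (.nd 3484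 (.nd 3482 (.nd 3481 (.lf 33340) (.lf 2118155837)) (.nd 3483 (.lf 32318) (.lf 32319))) (.nd 3486 (.nd 3485 (.lf 32320) (.lf 32321)) (.nd 3487 (.lf 2118483522) (.lf 32323)))) (.nd 3492 (.nd 3490 (.nd 3489 (.lf 32324) (.lf 32325)) (.nd 3491 (.lf 32326) (.lf 2185921095))) (.nd 3494 (.nd 3493 (.lf 33352) (.lf 33353)) (.nd 3495 (.lf 33354) (.lf 33355)))))
/-- Data. -/
def e4T : Tr ℕ := .nd 1748 (.nd 836 (.nd 380 (.nd 152 (.nd 76 (e4T_0) (e4T_1)) (.nd 228 (e4T_2) (.nd 304 (e4T_3) (e4T_4)))) (.nd 608 (.nd 456 (e4T_5) (.nd 532 (e4T_6) (e4T_7))) (.nd 684 (e4T_8) (.nd 760 (e4T_9) (e4T_10))))) (.nd 1292 (.nd 1064 (.nd 912 (e4T_11) (.nd 988 (e4T_12) (e4T_13))) (.nd 1140 (e4T_14) (.nd 1216 (e4T_15) (e4T_16)))) (.nd 1520 (.nd 1368 (e4T_17) (.nd 1444 (e4T_18) (e4T_19))) (.nd 1596 (e4T_20) (.nd 1672 (e4T_21) (e4T_22)))))) (.nd 2584 (.nd 2128 (.nd 1900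 (.nd 1824 (e4T_23) (e4T_24)) (.nd 1976 (e4T_25) (.nd 2052 (e4T_26) (e4T_27)))) (.nd 2356 (.nd 2204 (e4T_28) (.nd 2280 (e4T_29) (e4T_30))) (.nd 2432 (e4T_31) (.nd 2508 (e4T_32) (e4T_33))))) (.nd 3040 (.nd 2812 (.nd 2660 (e4T_34) (.nd 2736 (e4T_35) (e4T_36))) (.nd 2888 (e4T_37) (.nd 2964 (e4T_38) (e4T_39)))) (.nd 3268 (.nd 3116 (e4T_40) (.nd 3192 (e4T_41) (e4T_42))) (.nd 3344 (e4T_43) (.nd 3420 (e4T_44) (.nd 3496 (e4T_45) (.lf 0)))))))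

end HopfKC
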