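import Pool.Agent.Lib.H87.HopfKC.Cert.SignF
import Pool.Agent.Lib.H13.HopfEChk
import Pool.Agent.Lib.H79.HopfT3
import Pool.Agent.Lib.H91.HopfT4

/-!
# The certificate: lower bound for the Gauss–Bonnet integrand
-/

open Finset H91.Split

namespace HopfKC

/-- Check of all terms: types 0 to 5 with row indices below 6, or type 6. -/
noncomputable def ckT (t : ℕ × ℕ × ℕ) : Bool :=
  bif Nat.beq t.1 6 then true else
    Nat.blt t.1 6 && I76.all fun i => (en (col t.2.2 i)).all fun e => Nat.blt e.1 6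

theorem ckT_all : tms.all ckT = true := by decide +kernel

theorem KP_nonneg {S : T6'} (h : Adm S) (t : ℕ × ℕ × ℕ) (ht : t ∈ tms) :
    0 ≤ KP t.1 t.2.2 (cv 1 S) := by
  have hB : Best S := h.best
  have h1 := List.all_eq_true.1 ckT_all t ht
  unfold ckT at h1
  by_cases h6 : t.1 = 6
  · exact T3.tms6_nonneg hB t ht h6
  · have h7 : Nat.beq t.1 6 = false := by
      rw [← Bool.not_eq_true]
      intro h8
      exact h6 ((beq_iff _ _).1 h8)
    rw [h7, cond_false, Bool.and_eq_true] at h1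
    have h2 : t.1 < 6 := Nat.le_of_ble_eq_true h1.1
    have h3 : ∀ i < 76, ∀ e ∈ en (col t.2.2 i), e.1 < 6 := by
      intro i hi e he
      exact Nat.le_of_ble_eq_true
        (List.all_eq_true.1 (List.all_eq_true.1 h1.2 i (I76_mem i hi)) e he)
    unfold KP
    rw [kp_K hB.lin t.1 t.2.2 h2 h3]
    have := h.kc (fun a => vl (xv t.1 a)) (fun b => wv t.2.2 (cv 1 S) b.1)
    linarith

theorem tm48_mem : tm48 ∈ tms := by
  unfold tms
  simp only [List.mem_cons, true_or, or_true]

/-- Column check of the distinguished term. -/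
noncomputable def ck48 : Bool :=
  I76.all fun i => bif Nat.beq i 0 then (en (col tm48.2.2 i)) == [(3, 1, 0)]
    else (en (col tm48.2.2 i)) == []

theorem ck48_true : ck48 = true := by decide +kernel

theorem en48 : en (col tm48.2.2 0) = [(3, 1, 0)] ∧ ∀ i < 76, i ≠ 0 → en (col tm48.2.2 i) = [] := by
  have h := ck48_true
  unfold ck48 at h
  constructor
  · have h1 := List.all_eq_true.1 h 0 (I76_mem 0 (by norm_num))
    rw [show Nat.beq 0 0 = true from rfl, cond_true] at h1
    exact eq_of_beq h1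
  · intro i hi h0
    have h1 := List.all_eq_true.1 h i (I76_mem i hi)
    have h7 : Nat.beq i 0 = false := by
      rw [← Bool.not_eq_true]
      intro h8
      exact h0 ((beq_iff _ _).1 h8)
    rw [h7, cond_false] at h1
    exact eq_of_beq h1

theorem xv2 : xv 2 = fun a => if a = 0 then (1, 0) else (0, 0) := by
  funext a
  fin_cases a <;> rfl

theorem KP48 {S : T6'} (h : Lin 1 S) : KP tm48.1 tm48.2.2 (cv 1 S) = 2 * S 0 3 0 3 := by
  unfold KP
  have hW : ∀ i < 76, ∀ e ∈ en (col tm48.2.2 i), e.1 < 6 := by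
    intro i hi e he
    by_cases h0 : i = 0
    · rw [h0, en48.1] at he
      rw [List.mem_singleton.1 he]
      norm_num
    · rw [en48.2 i hi h0] at he
      exact absurd he List.not_mem_nil
  rw [kp_K h tm48.1 tm48.2.2 (by decide) hW]
  have hw : ∀ b : ℕ, wv tm48.2.2 (cv 1 S) b = if b = 3 then 1 else 0 := by
    intro b
    unfold wv
    rw [Finset.sum_eq_single 0]
    · have : cv 1 S 0 = 1 := by simp [cv]
      rw [this]
      unfold xc
      rw [en48.1]
      by_cases hb : b = 3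
      · simp [hb, vl]
      · have hb' : ¬ (3 = b) := fun h => hb h.symm
        simp [hb, hb', vl]
    · intro i hi h0
      unfold xc
      rw [en48.2 i (Finset.mem_range.1 hi) h0]
      simp
    · intro h0
      exact absurd (Finset.mem_range.2 (by norm_num)) h0
  congr 1
  unfold kc
  have hx : (fun a => vl (xv tm48.1 a)) = fun a : Fin 6 => if a = 0 then (1 : ℂ) else 0 := by
    have : tm48.1 = 2 := rfl
    rw [this, xv2]
    funext a
    by_cases ha : a = 0
    · simp [ha, vl]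
    · simp [ha, vl]
  rw [hx]
  simp only [hw]
  have h3 : ∀ b : Fin 6, (if b.1 = 3 then (1 : ℂ) else 0) = if b = 3 then 1 else 0 := by
    intro b
    fin_cases b <;> rfl
  simp only [h3]
  simp only [mul_ite, mul_one, mul_zero, apply_ite (starRingEnd ℂ), map_one, map_zero]
  simp

/-- The certificate for a single sign pattern. -/
theorem part_le {S : T6'} (h : Adm S)
    (hmax : ∀ g : M6, IsBlk g → g.transpose * g = 1 →
      P (fun k i j => (fh k i j : ℝ)) 76 (vq qd (rot g S)) ≤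
        P (fun k i j => (fh k i j : ℝ)) 76 (vq qd S)) :
    ∑ k ∈ range 76, ∑ i ∈ range 76, ∑ j ∈ range 76, zr k i j *
      (cv 1 S k * cv 1 S i * cv 1 S j) ≤
    3 * (NN : ℝ) * (HopfSix.gaussBonnet S / 96) - 6 * ((tm48.2.1 : ℝ) * (2 * S 0 3 0 3)) := by
  have hL : Lin 1 S := h.best.lin
  rw [sum_zr, ← gb_e4 hL]
  have h1 := Act.casimir_le_of_max hL hmax
  have h2 : (tm48.2.1 : ℝ) * (2 * S 0 3 0 3) ≤
      (tms.map fun t => (t.2.1 : ℝ) * KP t.1 t.2.2 (cv 1 S)).sum := by
    rw [← KP48 hL]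
    refine List.single_le_sum ?_ _ (List.mem_map_of_mem (f := fun t : ℕ × ℕ × ℕ =>
      (t.2.1 : ℝ) * KP t.1 t.2.2 (cv 1 S)) tm48_mem)
    intro x hx
    obtain ⟨t, ht, rfl⟩ := List.mem_map.1 hx
    exact mul_nonneg (Nat.cast_nonneg _) (KP_nonneg h t ht)
  linarith

theorem rot_dg_0303 (R : T6') (D : ℕ) : rot (dg D) R 0 3 0 3 = R 0 3 0 3 := by
  rw [dg, rot_diagonal]
  by_cases h0 : D.testBit 0 = true <;> by_cases h3 : D.testBit 3 = true <;> simp [h0, h3]

theorem dNN : (92 : ℝ) * (NN : ℝ) ≤ 384 * (tm48.2.1 : ℝ) := by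
  have h : 92 * NN ≤ 384 * tm48.2.1 := by decide +kernel
  exact_mod_cast h

theorem NN_pos : (0 : ℝ) < (NN : ℝ) := by
  have h : 0 < NN := by decide +kernel
  exact_mod_cast h

/-- **The certificate.** For an admissible tensor which maximises the auxiliary cubic over all
block rotations, the Gauss–Bonnet integrand is at least `92 R₀₃₀₃`. -/
theorem cert {S : T6'} (h : Adm S)
    (hmax : ∀ g : M6, IsBlk g → g.transpose * g = 1 →
      P (fun k i j => (fh k i j : ℝ)) 76 (vq qd (rot g S)) ≤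
        P (fun k i j => (fh k i j : ℝ)) 76 (vq qd S)) :
    92 * S 0 3 0 3 ≤ HopfSix.gaussBonnet S := by
  have key : ∀ D : ℕ, ∑ k ∈ range 76, ∑ i ∈ range 76, ∑ j ∈ range 76,
      zr k i j * (((chi D k : ℝ) * cv 1 S k) * ((chi D i : ℝ) * cv 1 S i) *
        ((chi D j : ℝ) * cv 1 S j)) ≤
      3 * (NN : ℝ) * (HopfSix.gaussBonnet S / 96) - 6 * ((tm48.2.1 : ℝ) * (2 * S 0 3 0 3)) := by
    intro D
    have hD : Adm (rot (dg D) S) := h.rot (dg_blk D) (dg_orth D)
    have h1 := part_le hD (fun g hg ho => by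
      rw [rot_rot, P_sign]
      exact hmax _ ((dg_blk D).mul hg) (orth_mul (dg_orth D) ho))
    rw [gb_rot S (dg_orth D), rot_dg_0303] at h1
    simp only [cv_rot_dg] at h1
    exact h1
  have h0 := sign_sum (cv 1 S)
  have h2 : (0 : ℝ) ≤ ∑ D ∈ range 64, (3 * (NN : ℝ) * (HopfSix.gaussBonnet S / 96) -
      6 * ((tm48.2.1 : ℝ) * (2 * S 0 3 0 3))) := by
    rw [← h0]
    exact Finset.sum_le_sum fun D _ => key D
  rw [Finset.sum_const, Finset.card_range, nsmul_eq_mul] at h2
  have h3 : (0 : ℝ) ≤ 3 * (NN : ℝ) * (HopfSix.gaussBonnet S / 96) -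
      6 * ((tm48.2.1 : ℝ) * (2 * S 0 3 0 3)) := by
    have : (0 : ℝ) < ((64 : ℕ) : ℝ) := by norm_num
    exact nonneg_of_mul_nonneg_right h2 this
  have hS : 0 ≤ S 0 3 0 3 := by
    have := KP_nonneg h tm48 tm48_mem
    rw [KP48 h.best.lin] at this
    linarith
  have h5 := mul_le_mul_of_nonneg_right dNN hS
  have hN := NN_pos
  by_contra hlt
  rw [not_le] at hlt
  have h6 := mul_lt_mul_of_pos_left hlt hN
  linarith

end HopfKC
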