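import Pool.Agent.Lib.H87.HopfKC.Cert.ChkAll
import Pool.Agent.Lib.H87.HopfKC.Cert.RowK
import Pool.Agent.Lib.H87.HopfKC.Cert.Gen
import Pool.Agent.Lib.H26.HopfSign

/-!
# The identity of the certificate after averaging over the sign changes
-/

open Finset

namespace HopfKC

theorem mk_eq : ∀ k < 76, mk k = mask k := by decide +kernel

theorem cls_mem : ∀ j < 76, j ∈ Tr.get clsT (mk j) := by decide +kernel

theorem xor_eq_zero' {a b c : ℕ} (h : a ^^^ b ^^^ c = 0) : a ^^^ b = c := by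
  have h1 : (a ^^^ b ^^^ c) ^^^ c = 0 ^^^ c := by rw [h]
  rwa [Nat.xor_assoc, Nat.xor_self, Nat.xor_zero, Nat.zero_xor] at h1

theorem Z_zero {k i j : ℕ} (h1 : k ≤ i) (h2 : i ≤ j) (h3 : j < 76)
    (hm : mask k ^^^ mask i ^^^ mask j = 0) : Z k i j = 0 := by
  have hr := row_all k (by omega)
  unfold row at hr
  have h4 := List.all_eq_true.1 hr i (I76_mem i (by omega))
  have h5 : Nat.xor (mk k) (mk i) = mk j := by
    rw [mk_eq k (by omega), mk_eq i (by omega), mk_eq j h3]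
    exact xor_eq_zero' hm
  rw [show Nat.ble k i = true from Nat.ble_eq_true_of_le h1, cond_true, h5] at h4
  have h6 := List.all_eq_true.1 h4 j (cls_mem j h3)
  rw [show Nat.ble i j = true from Nat.ble_eq_true_of_le h2, cond_true] at h6
  exact (isz_iff _).1 h6

/-- The sum of the tensors of the positive terms. -/
noncomputable def KK (l : List (ℕ × ℕ × ℕ)) (k i j : ℕ) : ℤ :=
  (l.map fun t => (t.2.1 : ℤ) * kp t.1 t.2.2 k i j).sum

theorem KK_cons (t : ℕ × ℕ × ℕ) (l : List (ℕ × ℕ × ℕ)) (k i j : ℕ) :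
    KK (t :: l) k i j = (t.2.1 : ℤ) * kp t.1 t.2.2 k i j + KK l k i j := rfl

theorem lsum_KK (l : List (ℕ × ℕ × ℕ)) (k i j : ℕ) :
    lsum l (fun t => Int.mul (.ofNat t.2.1) (s6 (kp t.1 t.2.2) k i j)) =
      KK l k i j + KK l k j i + KK l i k j + KK l i j k + KK l j k i + KK l j i k := by
  induction l with
  | nil => simp [lsum_nil, KK]
  | cons t l ih =>
    rw [lsum_cons, ih]
    simp only [KK_cons]
    have e : Int.mul (.ofNat t.2.1) (s6 (kp t.1 t.2.2) k i j) = (t.2.1 : ℤ) *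
        (kp t.1 t.2.2 k i j + kp t.1 t.2.2 k j i + (kp t.1 t.2.2 i k j + kp t.1 t.2.2 i j k) +
          (kp t.1 t.2.2 j k i + kp t.1 t.2.2 j i k)) := rfl
    rw [e]
    ring

/-- Value of the tensor of a positive term. -/
noncomputable def KP (t W : ℕ) (v : ℕ → ℝ) : ℝ :=
  ∑ k ∈ range 76, ∑ i ∈ range 76, ∑ j ∈ range 76, ((kp t W k i j : ℤ) : ℝ) * (v k * v i * v j)

theorem sum_KK (l : List (ℕ × ℕ × ℕ)) (v : ℕ → ℝ) :
    ∑ k ∈ range 76, ∑ i ∈ range 76, ∑ j ∈ range 76, ((KK l k i j : ℤ) : ℝ) * (v k * v i * v j) =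
      (l.map fun t => (t.2.1 : ℝ) * KP t.1 t.2.2 v).sum := by
  induction l with
  | nil => simp [KK]
  | cons t l ih =>
    simp only [KK_cons, List.map_cons, List.sum_cons]
    rw [← ih]
    unfold KP
    simp only [Finset.mul_sum, ← Finset.sum_add_distrib]
    refine Finset.sum_congr rfl fun k _ => Finset.sum_congr rfl fun i _ =>
      Finset.sum_congr rfl fun j _ => ?_
    push_cast
    ring

theorem lsum_congr' {α : Type} (l : List α) (f g : α → ℤ) (h : ∀ a, f a = g a) :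
    lsum l f = lsum l g := by
  rw [show f = g from funext h]

theorem cc_symm (k i j : ℕ) : cc k j i = cc k i j := by
  rw [cc_eq_ccg, cc_eq_ccg]
  unfold ccg
  exact lsum_congr' _ _ _ fun e => by rw [fh_eq_fhg, fh_eq_fhg, fhg_symm23]

theorem lsum_add' {α : Type} (l : List α) (f g : α → ℤ) :
    lsum l (fun a => f a + g a) = lsum l f + lsum l g := by
  induction l with
  | nil => rfl
  | cons a l ih => rw [lsum_cons, lsum_cons, lsum_cons, ih]; ring

theorem dd_symm (a b : List (ℕ × ℤ)) (j : ℕ) : ddg fh a b j = ddg fh b a j := by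
  unfold ddg
  have h0 : ∀ l : List (ℕ × ℤ), lsum l (fun _ => (0 : ℤ)) = 0 := by
    intro l
    induction l with
    | nil => rfl
    | cons e l ih => rw [lsum_cons, ih]; rfl
  induction a with
  | nil =>
    rw [lsum_nil]
    have : (fun e : ℕ × ℤ => lsum [] fun e' : ℕ × ℤ => Int.mul (Int.mul e.2 e'.2) (fh e.1 e'.1 j)) =
      fun _ => (0 : ℤ) := rfl
    rw [this, h0]
  | cons x a ih =>
    rw [lsum_cons, ih]
    have : (fun e : ℕ × ℤ => lsum (x :: a) fun e' : ℕ × ℤ =>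
        Int.mul (Int.mul e.2 e'.2) (fh e.1 e'.1 j)) =
      fun e : ℕ × ℤ => Int.mul (Int.mul x.2 e.2) (fh x.1 e.1 j) + lsum a fun e' : ℕ × ℤ =>
        Int.mul (Int.mul e.2 e'.2) (fh e.1 e'.1 j) := by
      funext e
      rw [lsum_cons]
      congr 1
      rw [fh_eq_fhg, fh_eq_fhg, fhg_symm12, show Int.mul e.2 x.2 = e.2 * x.2 from rfl,
        show Int.mul x.2 e.2 = x.2 * e.2 from rfl, mul_comm]
    rw [this, lsum_add']

theorem zip_symm (L M : List (List (ℕ × ℤ))) (j : ℕ) :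
    List.zipWith (fun a b => ddg fh a b j) L M = List.zipWith (fun a b => ddg fh a b j) M L := by
  rw [List.zipWith_comm]
  congr 1
  funext a b
  exact dd_symm _ _ _

theorem xx_symm (k i j : ℕ) : xx i k j = xx k i j := by
  rw [xx_eq_xxg, xx_eq_xxg]
  unfold xxg
  rw [zip_symm]

/-- The tensor of the identity. -/
noncomputable def zr (k i j : ℕ) : ℝ :=
  3 * (NN : ℝ) * (e4 k i j : ℝ) + 2 * ((3 * cc k i j + 6 * xx k i j : ℤ) : ℝ) -
    6 * ((KK tms k i j : ℤ) : ℝ)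

theorem sym6_zr (k i j : ℕ) : sym6 zr k i j = 3 * ((Z k i j : ℤ) : ℝ) := by
  have hZ : Z k i j = (NN : ℤ) * (e4 k i j + e4 k j i + (e4 i k j + e4 i j k) +
      (e4 j k i + e4 j i k)) + 4 * (cc k i j + cc i k j + cc j k i +
        2 * (xx k i j + xx k j i + xx i j k)) - 2 * kt k i j := rfl
  have hk : kt k i j = KK tms k i j + KK tms k j i + KK tms i k j + KK tms i j k +
      KK tms j k i + KK tms j i k := lsum_KK tms k i j
  rw [hZ, hk]
  unfold sym6 zr
  rw [cc_symm k i j, cc_symm i k j, cc_symm j k i, xx_symm k i j, xx_symm k j i, xx_symm i j k]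
  push_cast
  ring

theorem sign_sum (v : ℕ → ℝ) :
    ∑ D ∈ range 64, ∑ k ∈ range 76, ∑ i ∈ range 76, ∑ j ∈ range 76,
      zr k i j * (((chi D k : ℝ) * v k) * ((chi D i : ℝ) * v i) * ((chi D j : ℝ) * v j)) = 0 := by
  refine sum_sign_eq_zero zr 76 (fun k i j h1 h2 h3 hm => ?_) v
  rw [sym6_zr, Z_zero h1 h2 h3 hm]
  simp

/-- Values of the three parts. -/
theorem sum_zr (v : ℕ → ℝ) :
    ∑ k ∈ range 76, ∑ i ∈ range 76, ∑ j ∈ range 76, zr k i j * (v k * v i * v j) =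
    3 * (NN : ℝ) * (∑ k ∈ range 76, ∑ i ∈ range 76, ∑ j ∈ range 76,
      (e4 k i j : ℝ) * (v k * v i * v j)) +
    2 * (∑ k ∈ range 76, ∑ i ∈ range 76, ∑ j ∈ range 76,
      ((3 * cc k i j + 6 * xx k i j : ℤ) : ℝ) * (v k * v i * v j)) -
    6 * (tms.map fun t => (t.2.1 : ℝ) * KP t.1 t.2.2 v).sum := by
  rw [← sum_KK]
  simp only [Finset.mul_sum, ← Finset.sum_add_distrib, ← Finset.sum_sub_distrib]
  refine Finset.sum_congr rfl fun k _ => Finset.sum_congr rfl fun i _ =>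
    Finset.sum_congr rfl fun j _ => ?_
  unfold zr
  ring

end HopfKC
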