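import Pool.Agent.Lib.H87.HopfKC.Cert.Def

/-!
# The tensors of the positive terms as Hermitian forms
-/

open Finset

namespace HopfKC

theorem lsum_nil {α : Type} (f : α → ℤ) : lsum [] f = 0 := rfl
theorem lsum_cons {α : Type} (a : α) (l : List α) (f : α → ℤ) :
    lsum (a :: l) f = f a + lsum l f := rfl

theorem lsum_eq {α : Type} (l : List α) (f : α → ℤ) : lsum l f = (l.map f).sum := by
  induction l with
  | nil => rfl
  | cons a l ih => rw [lsum_cons, ih, List.map_cons, List.sum_cons]

/-- Complex value of a packed coefficient. -/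
noncomputable def avd (a : ℕ) : ℂ :=
  if a = 0 then 0 else ((Int.subNatNat (Nat.mod a 1024) 512 : ℤ) : ℂ) +
    ((Int.subNatNat (Nat.shiftRight a 10) 512 : ℤ) : ℂ) * Complex.I

/-- Complex value of a pair. -/
noncomputable def vl (w : ℤ × ℤ) : ℂ := (w.1 : ℂ) + (w.2 : ℂ) * Complex.I

theorem pr_eq (a : ℕ) (w u : ℤ × ℤ) :
    ((pr a w u : ℤ) : ℝ) = (avd a * vl w * (starRingEnd ℂ) (vl u)).re := by
  by_cases ha : a = 0
  · subst ha
    simp [avd]
    rfl
  · have e : pr a w u = Int.subNatNat (Nat.mod a 1024) 512 * (w.1 * u.1 + w.2 * u.2) -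
        Int.subNatNat (Nat.shiftRight a 10) 512 * (w.2 * u.1 - w.1 * u.2) := by
      have hb : Nat.beq a 0 = false := by
        cases a with
        | zero => exact absurd rfl ha
        | succ n => rfl
      unfold pr
      rw [hb]
      rfl
    rw [e, avd, if_neg ha, vl, vl]
    generalize Int.subNatNat (Nat.mod a 1024) 512 = A1
    generalize Int.subNatNat (Nat.shiftRight a 10) 512 = A2
    push_cast
    simp only [Complex.add_re, Complex.add_im, Complex.mul_re, Complex.mul_im, Complex.conj_re,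
      Complex.conj_im, Complex.intCast_re, Complex.intCast_im, Complex.I_re, Complex.I_im]
    ring

theorem kap_eq (row ci cj : ℕ) : ((kap row ci cj : ℤ) : ℝ) =
    (((en ci).map fun e => ((en cj).map fun e' =>
      avd (av row e.1 e'.1) * vl e.2 * (starRingEnd ℂ) (vl e'.2)).sum).sum).re := by
  have h1 : ∀ (l : List (ℕ × ℤ × ℤ)) (f : ℕ × ℤ × ℤ → ℤ) (g : ℕ × ℤ × ℤ → ℂ),
      (∀ e, ((f e : ℤ) : ℝ) = (g e).re) → ((lsum l f : ℤ) : ℝ) = ((l.map g).sum).re := by
    intro l f g h
    induction l with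
    | nil => simp [lsum_nil]
    | cons a l ih =>
      rw [lsum_cons, List.map_cons, List.sum_cons, Complex.add_re, ← ih, ← h]
      push_cast
      rfl
  exact h1 _ _ _ fun e => h1 _ _ _ fun e' => pr_eq _ _ _

theorem en_zero : en 0 = [] := rfl

theorem kp_eq (t W k i j : ℕ) : kp t W k i j = kap (rwo t k) (col W i) (col W j) := by
  have hb : ∀ a : ℕ, Nat.beq a 0 = true ↔ a = 0 := fun a => by
    cases a with
    | zero => exact ⟨fun _ => rfl, fun _ => rfl⟩
    | succ n => exact ⟨fun h => by simp [Nat.beq] at h, fun h => by simp at h⟩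
  unfold kp
  by_cases h1 : Nat.beq (col W i) 0 = true
  · rw [h1]
    have : col W i = 0 := (hb _).1 h1
    rw [this]
    rfl
  · rw [Bool.not_eq_true] at h1
    rw [h1]
    by_cases h2 : Nat.beq (col W j) 0 = true
    · rw [h2]
      have : col W j = 0 := (hb _).1 h2
      rw [this]
      unfold kap
      rw [en_zero]
      simp only [cond_false, cond_true, lsum_nil]
      rw [lsum_eq]
      simp
    · rw [Bool.not_eq_true] at h2
      rw [h2]
      rfl

/-- Matrix of linear forms of type `t` at `v`. -/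
noncomputable def Av (t : ℕ) (v : ℕ → ℝ) (b d : ℕ) : ℂ :=
  ∑ k ∈ range 76, avd (av (rwo t k) b d) * (v k : ℂ)

/-- Column coefficient. -/
noncomputable def xc (W i b : ℕ) : ℂ :=
  ((en (col W i)).map fun e => if e.1 = b then vl e.2 else 0).sum

/-- The vector `W v`. -/
noncomputable def wv (W : ℕ) (v : ℕ → ℝ) (b : ℕ) : ℂ := ∑ i ∈ range 76, xc W i b * (v i : ℂ)

theorem sum_ite_list (n : ℕ) (g : ℕ → ℂ) (f : ℤ × ℤ → ℂ) (l : List (ℕ × ℤ × ℤ))
    (hl : ∀ e ∈ l, e.1 < n) :
    ∑ b ∈ range n, g b * (l.map fun e => if e.1 = b then f e.2 else 0).sum =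
      (l.map fun e => g e.1 * f e.2).sum := by
  induction l with
  | nil => simp
  | cons a l ih =>
    have h1 := ih (fun e he => hl e (List.mem_cons_of_mem _ he))
    simp only [List.map_cons, List.sum_cons, mul_add, Finset.sum_add_distrib]
    rw [h1]
    congr 1
    simp only [mul_ite, mul_zero]
    rw [Finset.sum_ite_eq]
    rw [if_pos (Finset.mem_range.2 (hl a List.mem_cons_self))]

theorem inner_eq (n t W k i j : ℕ) (hi : ∀ e ∈ en (col W i), e.1 < n)
    (hj : ∀ e ∈ en (col W j), e.1 < n) :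
    ∑ b ∈ range n, ∑ d ∈ range n, avd (av (rwo t k) b d) * xc W i b *
      (starRingEnd ℂ) (xc W j d) =
    ((en (col W i)).map fun e => ((en (col W j)).map fun e' =>
      avd (av (rwo t k) e.1 e'.1) * vl e.2 * (starRingEnd ℂ) (vl e'.2)).sum).sum := by
  have h1 : ∀ b, ∑ d ∈ range n, avd (av (rwo t k) b d) * xc W i b *
      (starRingEnd ℂ) (xc W j d) = (((en (col W j)).map fun e' =>
        avd (av (rwo t k) b e'.1) * (starRingEnd ℂ) (vl e'.2)).sum) * xc W i b := by
    intro b
    have h2 : ∀ d, (starRingEnd ℂ) (xc W j d) =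
        ((en (col W j)).map fun e => if e.1 = d then (starRingEnd ℂ) (vl e.2) else 0).sum := by
      intro d
      unfold xc
      rw [map_list_sum, List.map_map]
      congr 1
      refine List.map_congr_left fun e _ => ?_
      simp only [Function.comp_apply]
      split_ifs <;> simp
    have h3 := sum_ite_list n (fun d => avd (av (rwo t k) b d))
      (fun w => (starRingEnd ℂ) (vl w)) (en (col W j)) hj
    rw [← h3, Finset.sum_mul]
    refine Finset.sum_congr rfl fun d _ => ?_
    rw [h2 d]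
    ring
  simp only [h1]
  have h4 := sum_ite_list n (fun b => (((en (col W j)).map fun e' =>
        avd (av (rwo t k) b e'.1) * (starRingEnd ℂ) (vl e'.2)).sum)) vl (en (col W i)) hi
  unfold xc
  rw [h4]
  congr 1
  refine List.map_congr_left fun e _ => ?_
  rw [← List.sum_map_mul_right]
  congr 1
  refine List.map_congr_left fun e' _ => ?_
  ring

/-- The tensor of a term evaluates to the Hermitian form. -/
theorem kp_sum (n t W : ℕ) (hW : ∀ i < 76, ∀ e ∈ en (col W i), e.1 < n) (v : ℕ → ℝ) :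
    ∑ k ∈ range 76, ∑ i ∈ range 76, ∑ j ∈ range 76, ((kp t W k i j : ℤ) : ℝ) *
      (v k * v i * v j) =
    (∑ b ∈ range n, ∑ d ∈ range n, Av t v b d * wv W v b * (starRingEnd ℂ) (wv W v d)).re := by
  have h1 : ∑ b ∈ range n, ∑ d ∈ range n, Av t v b d * wv W v b * (starRingEnd ℂ) (wv W v d) =
      ∑ k ∈ range 76, ∑ i ∈ range 76, ∑ j ∈ range 76,
        (∑ b ∈ range n, ∑ d ∈ range n, avd (av (rwo t k) b d) * xc W i b *
          (starRingEnd ℂ) (xc W j d)) * ((v k : ℂ) * (v i : ℂ) * (v j : ℂ)) := by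
    have h2 : ∀ b d, Av t v b d * wv W v b * (starRingEnd ℂ) (wv W v d) =
        ∑ k ∈ range 76, ∑ i ∈ range 76, ∑ j ∈ range 76, avd (av (rwo t k) b d) * xc W i b *
          (starRingEnd ℂ) (xc W j d) * ((v k : ℂ) * (v i : ℂ) * (v j : ℂ)) := by
      intro b d
      unfold Av wv
      rw [map_sum, Finset.sum_mul_sum, Finset.sum_mul]
      refine Finset.sum_congr rfl fun k _ => ?_
      rw [Finset.sum_mul_sum]
      refine Finset.sum_congr rfl fun i _ => Finset.sum_congr rfl fun j _ => ?_
      rw [map_mul, Complex.conj_ofReal]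
      ring
    simp only [h2]
    have sw : ∀ (f : ℕ → ℕ → ℕ → ℂ), ∑ b ∈ range n, ∑ d ∈ range n, ∑ k ∈ range 76, f b d k =
        ∑ k ∈ range 76, ∑ b ∈ range n, ∑ d ∈ range n, f b d k := by
      intro f
      rw [Finset.sum_comm]
      rw [Finset.sum_congr rfl fun d _ => Finset.sum_comm, Finset.sum_comm]
      exact Finset.sum_congr rfl fun k _ => Finset.sum_comm
    rw [sw]
    refine Finset.sum_congr rfl fun k _ => ?_
    rw [sw]
    refine Finset.sum_congr rfl fun i _ => ?_
    rw [sw]
    refine Finset.sum_congr rfl fun j _ => ?_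
    rw [Finset.sum_mul]
    refine Finset.sum_congr rfl fun b _ => ?_
    rw [Finset.sum_mul]
  rw [h1, Complex.re_sum]
  refine Finset.sum_congr rfl fun k _ => ?_
  rw [Complex.re_sum]
  refine Finset.sum_congr rfl fun i hi => ?_
  rw [Complex.re_sum]
  refine Finset.sum_congr rfl fun j hj => ?_
  rw [inner_eq n t W k i j (hW i (Finset.mem_range.1 hi)) (hW j (Finset.mem_range.1 hj)),
    kp_eq, kap_eq]
  rw [show ((v k : ℂ) * (v i : ℂ) * (v j : ℂ)) = ((v k * v i * v j : ℝ) : ℂ) by push_cast; ring,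
    Complex.re_mul_ofReal]

end HopfKC
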