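import Pool.Agent.Lib.H87.HopfKC.Cert.Ident

/-!
# Sign invariance of the auxiliary cubic
-/

open Finset H91.Split

namespace HopfKC

/-- All monomials of the auxiliary cubic are sign invariant. -/
noncomputable def ckF (k : ℕ) : Bool :=
  I76.all fun i => bif Nat.ble k i then I76.all fun j =>
    bif Nat.ble i j then
      bif Nat.beq (Nat.xor (Nat.xor (mk k) (mk i)) (mk j)) 0 then true else isz (f3 k i j)
    else true else true

theorem ckF_all : (I76.all ckF) = true := by decide +kernel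

theorem f3_mask {k i j : ℕ} (h1 : k ≤ i) (h2 : i ≤ j) (h3 : j < 76) (hf : f3 k i j ≠ 0) :
    mask k ^^^ mask i ^^^ mask j = 0 := by
  have hr := List.all_eq_true.1 ckF_all k (I76_mem k (by omega))
  unfold ckF at hr
  have h4 := List.all_eq_true.1 hr i (I76_mem i (by omega))
  rw [show Nat.ble k i = true from Nat.ble_eq_true_of_le h1, cond_true] at h4
  have h6 := List.all_eq_true.1 h4 j (I76_mem j h3)
  rw [show Nat.ble i j = true from Nat.ble_eq_true_of_le h2, cond_true] at h6
  rw [mk_eq k (by omega), mk_eq i (by omega), mk_eq j h3] at h6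
  by_contra hne
  have h7 : Nat.beq (Nat.xor (Nat.xor (mask k) (mask i)) (mask j)) 0 = false := by
    rw [← Bool.not_eq_true]
    intro h
    exact hne ((beq_iff _ _).1 h)
  rw [h7, cond_false] at h6
  exact hf ((isz_iff _).1 h6)

theorem fh_sorted {k i j : ℕ} (h1 : k ≤ i) (h2 : i ≤ j) : fh k i j = f3 k i j := by
  unfold fh
  rw [show Nat.ble k i = true from Nat.ble_eq_true_of_le h1,
    show Nat.ble i j = true from Nat.ble_eq_true_of_le h2, cond_true, cond_true]

theorem fh_mask {k i j : ℕ} (hk : k < 76) (hi : i < 76) (hj : j < 76) (hf : fh k i j ≠ 0) :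
    mask k ^^^ mask i ^^^ mask j = 0 := by
  have s12 : ∀ a b c, fh b a c = fh a b c := fun a b c => by
    rw [fh_eq_fhg, fh_eq_fhg, fhg_symm12]
  have s23 : ∀ a b c, fh a c b = fh a b c := fun a b c => by
    rw [fh_eq_fhg, fh_eq_fhg, fhg_symm23]
  have H : ∀ a b c, a ≤ b → b ≤ c → c < 76 → fh a b c ≠ 0 → mask a ^^^ mask b ^^^ mask c = 0 := by
    intro a b c h1 h2 h3 h4
    rw [fh_sorted h1 h2] at h4
    exact f3_mask h1 h2 h3 h4
  have x12 : ∀ a b c : ℕ, b ^^^ a ^^^ c = a ^^^ b ^^^ c := fun a b c => by rw [Nat.xor_comm b a]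
  have x23 : ∀ a b c : ℕ, a ^^^ c ^^^ b = a ^^^ b ^^^ c := fun a b c => by
    rw [Nat.xor_assoc, Nat.xor_comm c b, ← Nat.xor_assoc]
  rcases le_total k i with h1 | h1 <;> rcases le_total i j with h2 | h2 <;>
    rcases le_total k j with h3 | h3
  · exact H _ _ _ h1 h2 hj hf
  · exact H _ _ _ h1 h2 hj hf
  · have := H k j i h3 h2 hi (by rwa [s23])
    rwa [x23] at this
  · have := H j k i h3 h1 hi (by rwa [s12, s23])
    rwa [x12, x23] at this
  · have := H i k j h1 h3 hj (by rwa [s12])
    rwa [x12] at this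
  · have := H i j k h2 h3 hk (by rwa [s23, s12])
    rwa [x23, x12] at this
  · have := H j i k h2 h1 hk (by rwa [s12, s23, s12])
    rwa [x12, x23, x12] at this
  · have := H j i k h2 h1 hk (by rwa [s12, s23, s12])
    rwa [x12, x23, x12] at this

/-- The coordinates of a tensor in the notation of the maximum principle. -/
theorem vq_eq (R : T6') : vq qd R = cv 1 R := by
  funext i
  unfold vq cv
  rfl

/-- The auxiliary cubic is invariant under sign changes. -/
theorem P_sign (R : T6') (D : ℕ) :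
    P (fun k i j => (fh k i j : ℝ)) 76 (vq qd (rot (dg D) R)) =
      P (fun k i j => (fh k i j : ℝ)) 76 (vq qd R) := by
  have h := sum_sign_inv (fun k i j => if k < 76 ∧ i < 76 ∧ j < 76 then (fh k i j : ℝ) else 0) 76
    (fun k i j hne => by
      by_cases hc : k < 76 ∧ i < 76 ∧ j < 76
      · rw [if_pos hc] at hne
        exact fh_mask hc.1 hc.2.1 hc.2.2 (by exact_mod_cast hne)
      · rw [if_neg hc] at hne
        exact absurd rfl hne) D (cv 1 R)
  rw [vq_eq, vq_eq]
  unfold P
  have e : ∀ (w : ℕ → ℝ), ∑ k ∈ range 76, ∑ i ∈ range 76, ∑ j ∈ range 76,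
      (if k < 76 ∧ i < 76 ∧ j < 76 then (fh k i j : ℝ) else 0) * (w k * w i * w j) =
      ∑ k ∈ range 76, ∑ i ∈ range 76, ∑ j ∈ range 76, (fh k i j : ℝ) * (w k * w i * w j) := by
    intro w
    refine Finset.sum_congr rfl fun k hk => Finset.sum_congr rfl fun i hi =>
      Finset.sum_congr rfl fun j hj => ?_
    rw [if_pos ⟨Finset.mem_range.1 hk, Finset.mem_range.1 hi, Finset.mem_range.1 hj⟩]
  simp only [cv_rot_dg]
  rw [← e (cv 1 R), ← e (fun i => (chi D i : ℝ) * cv 1 R i)]
  exact h

end HopfKC
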